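import Pool.Agent.Helper12.SF.Defs

/-!
# SF: asymptotics
-/

set_option autoImplicit false

open Filter Topology

namespace Pool.Agent.Helper12.SF

/-- `log N / log log N` -/
noncomputable def KK (N : ℕ) : ℝ := Real.log N / Real.log (Real.log N)

lemma tendsto_L : Tendsto (fun N : ℕ => Real.log N) atTop atTop :=
  Real.tendsto_log_atTop.comp tendsto_natCast_atTop_atTop

lemma tendsto_LL : Tendsto (fun N : ℕ => Real.log (Real.log N)) atTop atTop :=
  Real.tendsto_log_atTop.comp tendsto_L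

lemma tendsto_KK : Tendsto KK atTop atTop := by
  have h1 : Tendsto (fun x : ℝ => Real.log x / x) atTop (𝓝 0) := by
    have := Real.isLittleO_log_id_atTop.tendsto_div_nhds_zero
    simpa using this
  have h2 : Tendsto (fun N : ℕ => Real.log (Real.log N) / Real.log N) atTop (𝓝[>] 0) := by
    rw [tendsto_nhdsWithin_iff]
    refine ⟨h1.comp tendsto_L, ?_⟩
    filter_upwards [tendsto_L.eventually_gt_atTop 0, tendsto_LL.eventually_gt_atTop 0] with N h3 h4
    exact div_pos h4 h3
  have h3 := h2.inv_tendsto_nhdsGT_zero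
  refine h3.congr fun N => ?_
  simp only [Pi.inv_apply, KK, inv_div]

lemma log_KK_div : Tendsto (fun N : ℕ => Real.log (KK N) / Real.log (Real.log N)) atTop (𝓝 1) := by
  have h1 : Tendsto (fun x : ℝ => Real.log x / x) atTop (𝓝 0) := by
    have := Real.isLittleO_log_id_atTop.tendsto_div_nhds_zero
    simpa using this
  have h2 : Tendsto (fun N : ℕ => 1 - Real.log (Real.log (Real.log N)) / Real.log (Real.log N))
      atTop (𝓝 (1 - 0)) := tendsto_const_nhds.sub (h1.comp tendsto_LL)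
  rw [sub_zero] at h2
  refine h2.congr' ?_
  filter_upwards [tendsto_L.eventually_gt_atTop 0, tendsto_LL.eventually_gt_atTop 0] with N h3 h4
  unfold KK
  rw [Real.log_div h3.ne' h4.ne', sub_div, div_self h4.ne']

lemma tendsto_mul_log (k : ℕ → ℝ) (a : ℝ) (ha : 0 < a)
    (hk : Tendsto (fun N => k N / KK N) atTop (𝓝 a)) :
    Tendsto (fun N : ℕ => k N * Real.log (k N) / Real.log N) atTop (𝓝 a) := by
  have h1 : Tendsto (fun N : ℕ => Real.log (k N / KK N)) atTop (𝓝 (Real.log a)) :=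
    (Real.continuousAt_log ha.ne').tendsto.comp hk
  have h2 : Tendsto (fun N : ℕ => Real.log (k N / KK N) / Real.log (Real.log N)) atTop (𝓝 0) :=
    h1.div_atTop tendsto_LL
  have h3 : Tendsto (fun N : ℕ => k N / KK N * (Real.log (k N / KK N) / Real.log (Real.log N) +
      Real.log (KK N) / Real.log (Real.log N))) atTop (𝓝 (a * (0 + 1))) :=
    hk.mul (h2.add log_KK_div)
  rw [zero_add, mul_one] at h3
  refine h3.congr' ?_
  filter_upwards [tendsto_L.eventually_gt_atTop 0, tendsto_LL.eventually_gt_atTop 0,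
    tendsto_KK.eventually_gt_atTop 0, hk.eventually (lt_mem_nhds ha)] with N h4 h5 h6 h7
  have h8 : 0 < k N := by
    rcases (div_pos_iff.1 h7) with h | h
    · exact h.1
    · linarith [h.2]
  rw [← add_div, ← Real.log_mul h7.ne' h6.ne', div_mul_cancel₀ _ h6.ne']
  have h9 : KK N * Real.log (Real.log N) = Real.log N := by
    unfold KK
    field_simp
  rw [div_mul_div_comm, h9]

/-- `π ^ 2 / 6` -/
noncomputable def c0 : ℝ := Real.pi ^ 2 / 6

lemma c0_pos : 0 < c0 := by unfold c0; positivity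

lemma inv_c0 : 6 / Real.pi ^ 2 = 1 / c0 := by unfold c0; rw [one_div_div]

lemma len_eq (lam : ℝ) (N : ℕ) : len lam N = ⌊lam * c0 * KK N⌋₊ := rfl

lemma len_div {lam : ℝ} (hl : 0 < lam) :
    Tendsto (fun N => (len lam N : ℝ) / KK N) atTop (𝓝 (lam * c0)) := by
  have h1 := (tendsto_nat_floor_mul_div_atTop (R := ℝ) (a := lam * c0)
    (mul_pos hl c0_pos).le).comp tendsto_KK
  exact h1

lemma len_tendsto {lam : ℝ} (hl : 0 < lam) : Tendsto (fun N => len lam N) atTop atTop := by
  have h1 : Tendsto (fun N => lam * c0 * KK N) atTop atTop :=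
    tendsto_KK.const_mul_atTop (mul_pos hl c0_pos)
  exact tendsto_nat_floor_atTop.comp h1

lemma len_mul_log {lam : ℝ} (hl : 0 < lam) :
    Tendsto (fun N : ℕ => (len lam N : ℝ) * Real.log (len lam N) / Real.log N) atTop
      (𝓝 (lam * c0)) :=
  tendsto_mul_log _ _ (mul_pos hl c0_pos) (len_div hl)

lemma pow_small {e : ℝ} (he : e < 1) (A κ : ℝ) (hκ : 0 < κ) :
    ∀ᶠ x : ℝ in atTop, A * x ^ e ≤ κ * x := by
  have h1 : ∀ᶠ x : ℝ in atTop, |A| / κ ≤ x ^ (1 - e) :=
    (tendsto_rpow_atTop (by linarith)).eventually_ge_atTop _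
  filter_upwards [h1, eventually_gt_atTop (0 : ℝ)] with x h1 h2
  rw [div_le_iff₀ hκ] at h1
  have h3 : x ^ (1 - e) * x ^ e = x := by
    rw [← Real.rpow_add h2, sub_add_cancel, Real.rpow_one]
  have h4 : 0 ≤ x ^ e := (Real.rpow_pos_of_pos h2 e).le
  calc A * x ^ e ≤ |A| * x ^ e := mul_le_mul_of_nonneg_right (le_abs_self A) h4
    _ ≤ (x ^ (1 - e) * κ) * x ^ e := mul_le_mul_of_nonneg_right h1 h4
    _ = κ * (x ^ (1 - e) * x ^ e) := by ring
    _ = κ * x := by rw [h3]

lemma len_le {lam : ℝ} (hl : 0 < lam) :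
    ∀ᶠ N : ℕ in atTop, (len lam N : ℝ) ≤ lam * c0 * Real.log N := by
  filter_upwards [tendsto_L.eventually_gt_atTop 0, tendsto_LL.eventually_ge_atTop 1,
    tendsto_KK.eventually_gt_atTop 0] with N h1 h2 h3
  rw [len_eq]
  have h4 := mul_pos hl c0_pos
  refine (Nat.floor_le (by positivity)).trans ?_
  refine mul_le_mul_of_nonneg_left ?_ h4.le
  unfold KK
  exact div_le_self h1.le h2

lemma len_small {lam : ℝ} (hl : 0 < lam) {e : ℝ} (he0 : 0 ≤ e) (he : e < 1) (A κ : ℝ) (hA : 0 ≤ A)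
    (hκ : 0 < κ) : ∀ᶠ N : ℕ in atTop, A * (len lam N : ℝ) ^ e ≤ κ * Real.log N := by
  have h0 := mul_pos hl c0_pos
  have h1 := tendsto_L.eventually (pow_small he (A * (lam * c0) ^ e) κ hκ)
  filter_upwards [h1, len_le hl, tendsto_L.eventually_gt_atTop 0] with N h2 h3 h4
  refine le_trans ?_ h2
  rw [mul_assoc, ← Real.mul_rpow h0.le h4.le]
  exact mul_le_mul_of_nonneg_left (Real.rpow_le_rpow (by positivity) h3 he0) hA

end Pool.Agent.Helper12.SF
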