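import Mathlib

/-!
# SF: large gaps between squarefree numbers (MP_b6670a_nt): definitions and statements of the parts
-/

set_option autoImplicit false

open Filter

namespace Pool.Agent.Helper12.SF

/-- No squarefree number among `m + 1, …, m + h`. -/
def Run (m h : ℕ) : Prop := ∀ i, 1 ≤ i → i ≤ h → ¬ Squarefree (m + i)

open Classical in
/-- The number of `m ≤ N` with `Run m h`. -/
noncomputable def runs (N h : ℕ) : ℕ := ((Finset.range (N + 1)).filter fun m => Run m h).card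

/-- `∏ (1 - 1 / p ^ 2)` -/
noncomputable def dens (S : Finset ℕ) : ℝ := ∏ p ∈ S, (1 - 1 / (p : ℝ) ^ 2)

/-- The primes `≤ z`. -/
def pr (z : ℕ) : Finset ℕ := (Finset.range (z + 1)).filter Nat.Prime

/-- SIEVE. -/
def S_SIEVE : Prop := ∀ S : Finset ℕ, (∀ p ∈ S, p.Prime) → ∀ m h : ℕ,
  |(((Finset.Icc 1 h).filter fun i => ∀ p ∈ S, ¬ p ^ 2 ∣ m + i).card : ℝ) - h * dens S| ≤
    2 ^ S.card

/-- EULER: `6 / π ^ 2` is the infinite product. -/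
def S_EULER : Prop := (∀ z : ℕ, 6 / Real.pi ^ 2 ≤ dens (pr z)) ∧
  ∀ η : ℝ, 0 < η → ∀ᶠ z : ℕ in atTop, dens (pr z) ≤ 6 / Real.pi ^ 2 + η

/-- PROD: a product. -/
def S_PROD : Prop := ∀ b s : ℝ, 0 < s → s ≤ 1 → 1 < b * s → ∃ C : ℝ, 0 < C ∧ ∀ A : ℝ, 0 ≤ A →
  ∀ S : Finset ℕ, (∀ n ∈ S, 1 ≤ n) → ∏ n ∈ S, (1 + A / (n : ℝ) ^ b) ≤ Real.exp (C * A ^ s)

/-- BT: the number of `m ≤ N` such that the squares of all `p ∈ T` divide one of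
`m + 1, …, m + h`. -/
def S_BT : Prop := ∀ (T : Finset ℕ), (∀ p ∈ T, p.Prime) → ∀ N h : ℕ,
  (((Finset.range (N + 1)).filter fun m => ∀ p ∈ T, ∃ i ∈ Finset.Icc 1 h, p ^ 2 ∣ m + i).card : ℝ) ≤
    (h : ℝ) ^ T.card * ((N : ℝ) / (∏ p ∈ T, (p : ℝ)) ^ 2 + 1)

/-- PRIM: many primes between `k` and `k ^ (1 + δ)`. -/
def S_PRIM : Prop := ∀ δ : ℝ, 0 < δ → ∀ᶠ k : ℕ in atTop, ∃ Q : Finset ℕ, Q.card = k ∧
  ∀ p ∈ Q, p.Prime ∧ k < p ∧ (p : ℝ) ≤ (k : ℝ) ^ (1 + δ)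

/-- CRT: the numbers `m < N` divisible by `P` such that every `m + i`, `i ∈ U`, is divisible by the
square of a prime in `Q`. -/
def S_CRT : Prop := ∀ (P h N : ℕ) (U Q : Finset ℕ), 0 < P → U ⊆ Finset.Icc 1 h →
  U.card = Q.card → (∀ p ∈ Q, p.Prime ∧ Nat.Coprime P p ∧ h < p ^ 2) →
    (Q.card).factorial * (N / (P * (∏ p ∈ Q, p) ^ 2)) ≤
      ((Finset.range N).filter fun m => P ∣ m ∧ ∀ i ∈ U, ∃ p ∈ Q, p ^ 2 ∣ m + i).card

/-- FEW: a long run contains many numbers which are divisible by the square of a large prime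
(from SIEVE, EULER). -/
def S_FEW : Prop := ∀ η : ℝ, 0 < η → ∀ᶠ h : ℕ in atTop, ∀ m : ℕ, Run m h →
  ∃ T : Finset ℕ, (6 / Real.pi ^ 2 - η) * h ≤ T.card ∧
    ∀ p ∈ T, p.Prime ∧ h < p ^ 2 ∧ ∃ i ∈ Finset.Icc 1 h, p ^ 2 ∣ m + i

/-- The length `⌊lam (π ^ 2 / 6) log N / log log N⌋`. -/
noncomputable def len (lam : ℝ) (N : ℕ) : ℕ :=
  ⌊lam * (Real.pi ^ 2 / 6) * (Real.log N / Real.log (Real.log N))⌋₊

/-- UP: the upper bound (from FEW, PROD, BT). -/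
def S_UP : Prop := ∀ lam ε : ℝ, 0 < lam → 0 < ε → ∀ᶠ N : ℕ in atTop,
  (runs N (len lam N) : ℝ) ≤ (N : ℝ) ^ (max (1 - lam) (2 / 3) + ε)

/-- LO: the lower bound (from SIEVE, EULER, PRIM, CRT). -/
def S_LO : Prop := ∀ lam ε : ℝ, 0 < lam → lam < 1 / 2 → 0 < ε → ∀ᶠ N : ℕ in atTop,
  (N : ℝ) ^ (1 - lam - ε) ≤ runs N (len lam N + 1)

/-- `m` is squarefree and the distance to the next squarefree number is larger than `t`. -/
def LongGap (t : ℝ) (m : ℕ) : Prop :=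
  Squarefree m ∧ ∀ m' : ℕ, m < m' → (m' : ℝ) ≤ m + t → ¬ Squarefree m'

end Pool.Agent.Helper12.SF
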