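import Pool.Agent.Helper12.SF.Defs

/-!
# SF: the part FEW
-/

set_option autoImplicit false
set_option maxHeartbeats 400000

open Filter Topology Finset

namespace Pool.Agent.Helper12.SF.Few

lemma count_one (hS : S_SIEVE) (p : ℕ) (hp : p.Prime) (m h : ℕ) :
    (((Finset.Icc 1 h).filter fun i => p ^ 2 ∣ m + i).card : ℝ) ≤ h * ((p : ℝ) ^ 2)⁻¹ + 2 := by
  have h1 := hS {p} (by simpa using hp) m h
  have h2 : dens {p} = 1 - 1 / (p : ℝ) ^ 2 := by simp [dens]
  rw [h2] at h1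
  have h3 : ((Finset.Icc 1 h).filter fun i => ∀ q ∈ ({p} : Finset ℕ), ¬ q ^ 2 ∣ m + i) =
      (Finset.Icc 1 h).filter fun i => ¬ p ^ 2 ∣ m + i := by
    refine filter_congr fun i _ => ?_
    simp
  rw [h3] at h1
  have h4 := card_filter_add_card_filter_not (s := Finset.Icc 1 h) (fun i => p ^ 2 ∣ m + i)
  rw [Nat.card_Icc, Nat.add_sub_cancel] at h4
  have h5 : ((((Finset.Icc 1 h).filter fun i => p ^ 2 ∣ m + i).card : ℝ) +
      ((Finset.Icc 1 h).filter fun i => ¬ p ^ 2 ∣ m + i).card) = h := by exact_mod_cast h4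
  rw [abs_le] at h1
  have h6 := h1.1
  simp only [card_singleton, pow_one] at h6
  rw [← one_div]
  nlinarith

theorem main (hS : S_SIEVE) (hE : S_EULER) : S_FEW := by
  classical
  intro η hη
  obtain ⟨z, hz⟩ := exists_nat_gt (4 / η)
  have hz0 : 0 < z := by
    have : (0 : ℝ) < z := (by positivity : (0:ℝ) < 4 / η).trans hz
    exact_mod_cast this
  have hzη : (z : ℝ)⁻¹ ≤ η / 4 := by
    rw [inv_le_comm₀ (by exact_mod_cast hz0) (by positivity), inv_div]
    exact hz.le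
  set C : ℝ := 2 ^ (pr z).card with hC
  have hCpos : 0 < C := by positivity
  obtain ⟨h0, hh0⟩ := exists_nat_gt ((C + 2) * 4 / η)
  obtain ⟨h1, hh1⟩ := exists_nat_gt ((16 / η) ^ 2)
  filter_upwards [eventually_ge_atTop h0, eventually_ge_atTop h1, eventually_ge_atTop 1] with h hh hh' hpos
  intro m hrun
  have hhR : (C + 2) * 4 / η < h := hh0.trans_le (by exact_mod_cast hh)
  have hhR' : (16 / η) ^ 2 < h := hh1.trans_le (by exact_mod_cast hh')
  set G := (Finset.Icc 1 h).filter fun i => ∀ p ∈ pr z, ¬ p ^ 2 ∣ m + i with hG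
  set B := (Finset.Icc 1 h).filter fun i => ∃ p, p.Prime ∧ z < p ∧ p ^ 2 ≤ h ∧ p ^ 2 ∣ m + i with hB
  have hprz : ∀ p ∈ pr z, p.Prime := fun p hp => (mem_filter.1 hp).2
  have hGc : 6 / Real.pi ^ 2 * h - C ≤ G.card := by
    have h1 := hS (pr z) hprz m h
    rw [abs_le] at h1
    have h2 := hE.1 z
    have h3 : 6 / Real.pi ^ 2 * h ≤ h * dens (pr z) := by
      rw [mul_comm]
      exact mul_le_mul_of_nonneg_left h2 (Nat.cast_nonneg _)
    linarith [h1.1]
  have hBc : (B.card : ℝ) ≤ h * (z : ℝ)⁻¹ + 2 * Nat.sqrt h := by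
    have hsub : B ⊆ ((Finset.Ioc z (Nat.sqrt h)).filter Nat.Prime).biUnion
        fun p => (Finset.Icc 1 h).filter fun i => p ^ 2 ∣ m + i := by
      intro i hi
      obtain ⟨hi1, p, hp, hzp, hph, hpd⟩ := mem_filter.1 hi
      rw [mem_biUnion]
      refine ⟨p, mem_filter.2 ⟨mem_Ioc.2 ⟨hzp, ?_⟩, hp⟩, mem_filter.2 ⟨hi1, hpd⟩⟩
      rw [Nat.le_sqrt']
      exact hph
    have h1 : (B.card : ℝ) ≤ ∑ p ∈ (Finset.Ioc z (Nat.sqrt h)).filter Nat.Prime,
        (h * ((p : ℝ) ^ 2)⁻¹ + 2) := by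
      have := (card_le_card hsub).trans card_biUnion_le
      have h' : (B.card : ℝ) ≤ ∑ p ∈ (Finset.Ioc z (Nat.sqrt h)).filter Nat.Prime,
        (((Finset.Icc 1 h).filter fun i => p ^ 2 ∣ m + i).card : ℝ) := by exact_mod_cast this
      refine h'.trans (sum_le_sum fun p hp => ?_)
      exact count_one hS p (mem_filter.1 hp).2 m h
    have h2 : ∑ p ∈ (Finset.Ioc z (Nat.sqrt h)).filter Nat.Prime, (h * ((p : ℝ) ^ 2)⁻¹ + 2) ≤
        ∑ p ∈ Finset.Ioc z (Nat.sqrt h), (h * ((p : ℝ) ^ 2)⁻¹ + 2) :=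
      sum_le_sum_of_subset_of_nonneg (filter_subset _ _) fun p _ _ => by positivity
    have h3 : ∑ p ∈ Finset.Ioc z (Nat.sqrt h), ((h : ℝ) * ((p : ℝ) ^ 2)⁻¹ + 2) ≤
        h * (z : ℝ)⁻¹ + 2 * Nat.sqrt h := by
      rw [sum_add_distrib, ← mul_sum, sum_const, Nat.card_Ioc]
      rcases le_or_gt z (Nat.sqrt h) with hle | hlt
      · have h4 := sum_Ioc_inv_sq_le_sub (α := ℝ) hz0.ne' hle
        have h5 : (∑ i ∈ Finset.Ioc z (Nat.sqrt h), ((i : ℝ) ^ 2)⁻¹) ≤ (z : ℝ)⁻¹ :=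
          h4.trans (by linarith [inv_nonneg.2 (Nat.cast_nonneg (α := ℝ) (Nat.sqrt h))])
        have h6 : ((Nat.sqrt h - z : ℕ) : ℝ) ≤ Nat.sqrt h := by exact_mod_cast Nat.sub_le _ _
        rw [nsmul_eq_mul]
        have h7 : (h : ℝ) * (∑ i ∈ Finset.Ioc z (Nat.sqrt h), ((i : ℝ) ^ 2)⁻¹) ≤ h * (z : ℝ)⁻¹ :=
          mul_le_mul_of_nonneg_left h5 (Nat.cast_nonneg _)
        linarith
      · rw [Ioc_eq_empty_of_le hlt.le, sum_empty, Nat.sub_eq_zero_of_le hlt.le]
        simp only [mul_zero, zero_smul, add_zero]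
        positivity
    exact h1.trans (h2.trans h3)
  have hex : ∀ i ∈ G \ B, ∃ p : ℕ, p.Prime ∧ h < p ^ 2 ∧ p ^ 2 ∣ m + i := by
    intro i hi
    obtain ⟨hiG, hiB⟩ := mem_sdiff.1 hi
    obtain ⟨hi1, hi2⟩ := mem_filter.1 hiG
    have hi3 := mem_Icc.1 hi1
    have hns := hrun i hi3.1 hi3.2
    rw [Nat.squarefree_iff_prime_squarefree] at hns
    push Not at hns
    obtain ⟨p, hp, hpd⟩ := hns
    rw [← sq] at hpd
    refine ⟨p, hp, ?_, hpd⟩
    by_contra hcon
    push Not at hcon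
    apply hiB
    rw [hB, mem_filter]
    refine ⟨hi1, p, hp, ?_, hcon, hpd⟩
    by_contra hpz
    push Not at hpz
    exact hi2 p (mem_filter.2 ⟨mem_range.2 (by omega), hp⟩) hpd
  choose! f hf using hex
  have hinj : Set.InjOn f (G \ B : Finset ℕ) := by
    intro i hi j hj hij
    have hi' : i ∈ G \ B := hi
    have hj' : j ∈ G \ B := hj
    have h1 := hf i hi'
    have h2 := hf j hj'
    rw [← hij] at h2
    have hi3 := mem_Icc.1 (mem_filter.1 (mem_sdiff.1 hi').1).1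
    have hj3 := mem_Icc.1 (mem_filter.1 (mem_sdiff.1 hj').1).1
    by_contra hne
    rcases lt_or_gt_of_ne hne with hlt | hlt
    · have h4 : f i ^ 2 ∣ (m + j) - (m + i) := Nat.dvd_sub h2.2.2 h1.2.2
      have h5 := Nat.le_of_dvd (by omega) h4
      omega
    · have h4 : f i ^ 2 ∣ (m + i) - (m + j) := Nat.dvd_sub h1.2.2 h2.2.2
      have h5 := Nat.le_of_dvd (by omega) h4
      omega
  refine ⟨(G \ B).image f, ?_, ?_⟩
  · rw [card_image_of_injOn hinj]
    have h1 : (G.card : ℝ) - B.card ≤ (G \ B).card := by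
      have := le_card_sdiff B G
      have h' : G.card ≤ (G \ B).card + B.card := by omega
      have h'' : (G.card : ℝ) ≤ (G \ B).card + B.card := by exact_mod_cast h'
      linarith
    have hs1 : ((Nat.sqrt h : ℕ) : ℝ) ≤ Real.sqrt h := Real.nat_sqrt_le_real_sqrt
    have hs2 : Real.sqrt h * 16 ≤ η * h := by
      have h3 : 16 / η < Real.sqrt h := by
        rw [show (16 / η) = Real.sqrt ((16 / η) ^ 2) from (Real.sqrt_sq (by positivity)).symm]
        exact Real.sqrt_lt_sqrt (by positivity) hhR'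
      have h4 : Real.sqrt h * Real.sqrt h = h := Real.mul_self_sqrt (Nat.cast_nonneg _)
      have h5 : 16 < η * Real.sqrt h := by
        rw [div_lt_iff₀ hη] at h3
        linarith
      have h6 : 0 ≤ Real.sqrt h := Real.sqrt_nonneg _
      nlinarith
    have hC4 : (C + 2) * 4 < η * h := by
      rw [div_lt_iff₀ hη] at hhR
      linarith
    have hz4 : (h : ℝ) * (z : ℝ)⁻¹ ≤ h * (η / 4) := mul_le_mul_of_nonneg_left hzη (Nat.cast_nonneg _)
    have hhn : (0 : ℝ) ≤ h := Nat.cast_nonneg _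
    nlinarith
  · intro p hp
    obtain ⟨i, hi, rfl⟩ := mem_image.1 hp
    have h1 := hf i hi
    exact ⟨h1.1, h1.2.1, i, (mem_filter.1 (mem_sdiff.1 hi).1).1, h1.2.2⟩

end Pool.Agent.Helper12.SF.Few
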