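import Pool.Agent.Helper12.SF.Asym

/-!
# SF: the lower bound
-/

set_option autoImplicit false
set_option maxHeartbeats 800000

open Filter Topology Finset

namespace Pool.Agent.Helper12.SF.Lo

/-- the uncovered positions -/
def UU (z h : ℕ) : Finset ℕ := (Finset.Icc 1 h).filter fun i => ∀ p ∈ pr z, ¬ p ^ 2 ∣ i

/-- the modulus -/
def PP (z : ℕ) : ℕ := ∏ p ∈ pr z, p ^ 2

lemma pr_prime {z p : ℕ} (hp : p ∈ pr z) : p.Prime := (mem_filter.1 hp).2

lemma PP_pos (z : ℕ) : 0 < PP z := prod_pos fun p hp => pow_pos (pr_prime hp).pos 2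

lemma lo_finite (hCRT : S_CRT) (z h N : ℕ) (Q : Finset ℕ) (hQ : Q.card = (UU z h).card)
    (hQ2 : ∀ p ∈ Q, p.Prime ∧ z < p ∧ h < p ^ 2) :
    (Q.card).factorial * (N / (PP z * (∏ p ∈ Q, p) ^ 2)) ≤ runs N h := by
  classical
  refine (hCRT (PP z) h N (UU z h) Q (PP_pos z) (filter_subset _ _) hQ.symm ?_).trans ?_
  · intro p hp
    obtain ⟨h1, h2, h3⟩ := hQ2 p hp
    refine ⟨h1, ?_, h3⟩
    refine Nat.Coprime.prod_left fun q hq => ?_
    refine Nat.Coprime.pow_left 2 ((Nat.coprime_primes (pr_prime hq) h1).2 ?_)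
    have := mem_range.1 (mem_filter.1 hq).1
    omega
  · unfold runs
    refine card_le_card fun m hm => ?_
    obtain ⟨h1, h2, h3⟩ := mem_filter.1 hm
    have h1' := mem_range.1 h1
    refine mem_filter.2 ⟨mem_range.2 (by omega), ?_⟩
    intro i hi1 hi2 hsq
    rw [Nat.squarefree_iff_prime_squarefree] at hsq
    by_cases hi : i ∈ UU z h
    · obtain ⟨p, hp, hpd⟩ := h3 i hi
      exact hsq p (hQ2 p hp).1 (by rw [← sq]; exact hpd)
    · have : ∃ p ∈ pr z, p ^ 2 ∣ i := by
        by_contra hcon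
        push Not at hcon
        exact hi (mem_filter.2 ⟨mem_Icc.2 ⟨hi1, hi2⟩, hcon⟩)
      obtain ⟨p, hp, hpd⟩ := this
      have h4 : p ^ 2 ∣ PP z := dvd_prod_of_mem (fun p => p ^ 2) hp
      exact hsq p (pr_prime hp) (by rw [← sq]; exact dvd_add (h4.trans h2) hpd)

lemma card_UU (hS : S_SIEVE) (z h : ℕ) :
    |((UU z h).card : ℝ) - h * dens (pr z)| ≤ 2 ^ (pr z).card := by
  have h1 := hS (pr z) (fun p hp => pr_prime hp) 0 h
  simp only [zero_add] at h1
  exact h1

lemma fact_ge (k : ℕ) : Real.exp (k * Real.log k - k) ≤ (k.factorial : ℝ) := by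
  have h1 := Real.pow_div_factorial_le_exp (k : ℝ) (Nat.cast_nonneg _) k
  rcases Nat.eq_zero_or_pos k with h | h
  · subst h; simp
  · have hk : (0 : ℝ) < k := by exact_mod_cast h
    have hf : (0 : ℝ) < k.factorial := by exact_mod_cast Nat.factorial_pos k
    rw [Real.exp_sub, div_le_iff₀ (Real.exp_pos _)]
    rw [div_le_iff₀ hf] at h1
    have h2 : Real.exp (k * Real.log k) = (k : ℝ) ^ k := by
      rw [mul_comm, ← Real.rpow_def_of_pos hk, Real.rpow_natCast]
    rw [h2, mul_comm]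
    exact h1

lemma prod_le (k : ℕ) (δ : ℝ) (hk : 0 < k) (Q : Finset ℕ) (hQ : Q.card = k)
    (hQ2 : ∀ p ∈ Q, (p : ℝ) ≤ (k : ℝ) ^ (1 + δ)) :
    ((∏ p ∈ Q, p : ℕ) : ℝ) ^ 2 ≤ Real.exp (2 * (1 + δ) * (k * Real.log k)) := by
  have hk' : (0 : ℝ) < k := by exact_mod_cast hk
  have h1 : ((∏ p ∈ Q, p : ℕ) : ℝ) ≤ ((k : ℝ) ^ (1 + δ)) ^ k := by
    rw [Nat.cast_prod, ← hQ]
    exact prod_le_pow_card_real Q hQ2 hQ
  have h2 : Real.exp (2 * (1 + δ) * (k * Real.log k)) = (((k : ℝ) ^ (1 + δ)) ^ k) ^ 2 := by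
    rw [Real.rpow_def_of_pos hk', ← Real.exp_nat_mul, ← Real.exp_nat_mul]
    congr 1
    push_cast
    ring
  rw [h2]
  exact pow_le_pow_left₀ (Nat.cast_nonneg _) h1 2
where
  prod_le_pow_card_real {k : ℕ} {δ : ℝ} (Q : Finset ℕ) (hQ2 : ∀ p ∈ Q, (p : ℝ) ≤ (k : ℝ) ^ (1 + δ))
      (hQ : Q.card = k) : ∏ p ∈ Q, (p : ℝ) ≤ ((Q.card : ℝ) ^ (1 + δ)) ^ Q.card := by
    rw [← prod_const]
    refine prod_le_prod (fun p _ => Nat.cast_nonneg _) fun p hp => ?_
    rw [hQ]
    exact hQ2 p hp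


lemma hh_div {lam : ℝ} (hl : 0 < lam) :
    Tendsto (fun N => ((len lam N + 1 : ℕ) : ℝ) / KK N) atTop (𝓝 (lam * c0)) := by
  have h1 : Tendsto (fun N => (1 : ℝ) / KK N) atTop (𝓝 0) := tendsto_const_nhds.div_atTop tendsto_KK
  have h2 := (len_div hl).add h1
  rw [add_zero] at h2
  refine h2.congr fun N => ?_
  push_cast
  rw [add_div]

theorem main (hS : S_SIEVE) (hE : S_EULER) (hPr : S_PRIM) (hCRT : S_CRT) : S_LO := by
  intro lam ε hl hl2 hε
  have hc := c0_pos
  have hlc := mul_pos hl hc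
  set e : ℝ := min ε (1 / 2 - lam) with he
  have he0 : 0 < e := lt_min hε (by linarith)
  have he1 : e ≤ ε := min_le_left _ _
  have he2 : e ≤ 1 / 2 - lam := min_le_right _ _
  set τ : ℝ := lam + e / 4 with hτ
  set δ : ℝ := e / 8 with hδ
  have hδ0 : 0 < δ := by positivity
  set η : ℝ := e / (8 * c0) with hη
  have hη0 : 0 < η := by positivity
  set κ : ℝ := 6 / Real.pi ^ 2 + η with hκ
  have hκ0 : 0 < κ := by positivity
  have hκτ : κ * (lam * c0) < τ := by
    have h1 : κ * (lam * c0) = lam + e * lam / 8 := by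
      rw [hκ, inv_c0, hη]
      field_simp
    rw [h1, hτ]
    nlinarith
  -- the sieving level
  obtain ⟨z, hz⟩ := (hE.2 (η / 2) (by positivity)).exists
  set C : ℝ := 2 ^ (pr z).card with hC
  have hCpos : 0 < C := by positivity
  set h : ℕ → ℕ := fun N => len lam N + 1 with hh
  have ht : Tendsto h atTop atTop := tendsto_atTop_mono (fun N => Nat.le_succ _) (len_tendsto hl)
  have htR : Tendsto (fun N => (h N : ℝ)) atTop atTop := tendsto_natCast_atTop_atTop.comp ht
  have hpi : (1 : ℝ) / 2 < 6 / Real.pi ^ 2 := by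
    rw [div_lt_div_iff₀ (by norm_num) (by positivity)]
    have := Real.pi_lt_d2
    nlinarith [Real.pi_pos]
  set γ : ℝ := 6 / Real.pi ^ 2 - 1 / 2 with hγ
  have hγ0 : 0 < γ := by rw [hγ]; linarith
  -- the number of the uncovered positions
  have hk1 : ∀ᶠ N in atTop, (h N : ℝ) / 2 ≤ (UU z (h N)).card := by
    filter_upwards [htR.eventually_ge_atTop (C / γ)] with N hN
    have h1 := card_UU hS z (h N)
    rw [abs_le] at h1
    have h2 := hE.1 z
    have h3 : 6 / Real.pi ^ 2 * h N ≤ h N * dens (pr z) := by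
      rw [mul_comm]
      exact mul_le_mul_of_nonneg_left h2 (Nat.cast_nonneg _)
    rw [div_le_iff₀ hγ0] at hN
    have h4 : 6 / Real.pi ^ 2 * (h N : ℝ) = γ * h N + h N / 2 := by rw [hγ]; ring
    linarith [h1.1]
  have hk2 : ∀ᶠ N in atTop, ((UU z (h N)).card : ℝ) ≤ κ * h N := by
    filter_upwards [htR.eventually_ge_atTop (C / (η / 2))] with N hN
    have h1 := card_UU hS z (h N)
    rw [abs_le] at h1
    have h3 : h N * dens (pr z) ≤ h N * (6 / Real.pi ^ 2 + η / 2) :=
      mul_le_mul_of_nonneg_left hz (Nat.cast_nonneg _)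
    rw [div_le_iff₀ (by positivity)] at hN
    rw [hκ]
    linarith [h1.2]
  have hkh : ∀ N, (UU z (h N)).card ≤ h N := by
    intro N
    have := card_le_card (filter_subset (fun i => ∀ p ∈ pr z, ¬ p ^ 2 ∣ i) (Finset.Icc 1 (h N)))
    rw [Nat.card_Icc] at this
    exact this.trans (by omega)
  have hkt : Tendsto (fun N => (UU z (h N)).card) atTop atTop := by
    have h1 : Tendsto (fun N => ((UU z (h N)).card : ℝ)) atTop atTop :=
      tendsto_atTop_mono' _ hk1 (htR.atTop_div_const (by norm_num))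
    exact tendsto_natCast_atTop_iff.1 h1
  have hlog := tendsto_mul_log (fun N => (h N : ℝ)) (lam * c0) hlc (hh_div hl)
  have hlog2 : ∀ᶠ N : ℕ in atTop, κ * ((h N : ℝ) * Real.log (h N) / Real.log N) < τ :=
    (hlog.const_mul κ).eventually (gt_mem_nhds hκτ)
  have hPl : ∀ᶠ N : ℕ in atTop, Real.log (2 * PP z) ≤ (e / 16) * Real.log N :=
    (tendsto_L.const_mul_atTop (by positivity : 0 < e / 16)).eventually_ge_atTop _
  have hPl2 : ∀ᶠ N : ℕ in atTop, Real.log (PP z) ≤ (1 / 2 - lam) * Real.log N :=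
    (tendsto_L.const_mul_atTop (by linarith : 0 < 1 / 2 - lam)).eventually_ge_atTop _
  have hklog : ∀ᶠ N : ℕ in atTop, 16 / e ≤ Real.log ((UU z (h N)).card : ℝ) :=
    ((Real.tendsto_log_atTop.comp (tendsto_natCast_atTop_atTop.comp hkt)).eventually_ge_atTop _)
  filter_upwards [hk1, hk2, hlog2, hPl, hPl2, hklog, hkt.eventually (hPr δ hδ0),
    hkt.eventually_ge_atTop (z + 1), htR.eventually_ge_atTop 5, tendsto_L.eventually_gt_atTop 0,
    eventually_ge_atTop 1] with N g1 g2 g3 g4 g5 g6 g7 g8 g9 g10 g11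
  set k := (UU z (h N)).card with hk
  obtain ⟨Q, hQc, hQ⟩ := g7
  have hkpos : 0 < k := by omega
  have hkR : (0 : ℝ) < k := by exact_mod_cast hkpos
  have hhk : h N < k ^ 2 := by
    have h1 : (h N : ℝ) < (k : ℝ) ^ 2 := by nlinarith
    exact_mod_cast h1
  have hfin := lo_finite hCRT z (h N) N Q hQc fun p hp => by
    obtain ⟨h1, h2, h3⟩ := hQ p hp
    refine ⟨h1, by omega, hhk.trans ?_⟩
    exact Nat.pow_lt_pow_left h2 (by norm_num)
  -- logarithms
  have hkk : (k : ℝ) * Real.log k ≤ τ * Real.log N := by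
    have hk1 : (1 : ℝ) ≤ k := by exact_mod_cast hkpos
    have h1 : Real.log k ≤ Real.log (h N) :=
      Real.log_le_log hkR (by exact_mod_cast hkh N)
    have h0 : 0 ≤ Real.log (h N : ℝ) := (Real.log_nonneg hk1).trans h1
    have h2 : (k : ℝ) * Real.log k ≤ κ * h N * Real.log (h N) :=
      (mul_le_mul_of_nonneg_left h1 hkR.le).trans (mul_le_mul_of_nonneg_right g2 h0)
    have h3 : κ * h N * Real.log (h N) = κ * ((h N : ℝ) * Real.log (h N) / Real.log N) * Real.log N := by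
      field_simp
    rw [h3] at h2
    exact h2.trans (mul_le_mul_of_nonneg_right g3.le g10.le)
  have hτ0 : 0 < τ := by positivity
  have hτ1 : τ ≤ 1 / 2 := by rw [hτ]; linarith
  have hksm : (k : ℝ) ≤ e / 16 * Real.log N := by
    have h1 : (k : ℝ) * (16 / e) ≤ k * Real.log k := mul_le_mul_of_nonneg_left g6 hkR.le
    have h2 : (k : ℝ) * (16 / e) ≤ Real.log N := by
      refine (h1.trans hkk).trans ?_
      nlinarith
    have h3 : (k : ℝ) = e / 16 * (k * (16 / e)) := by field_simp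
    rw [h3]
    exact mul_le_mul_of_nonneg_left h2 (by positivity)
  have hNR : (0 : ℝ) < N := by exact_mod_cast g11
  have hPR : (0 : ℝ) < PP z := by exact_mod_cast PP_pos z
  set D : ℕ := PP z * (∏ p ∈ Q, p) ^ 2 with hD
  have hprod := prod_le k δ hkpos Q hQc fun p hp => (hQ p hp).2.2
  have hDR : (D : ℝ) ≤ PP z * Real.exp (2 * (1 + δ) * (k * Real.log k)) := by
    rw [hD]
    push_cast
    refine mul_le_mul_of_nonneg_left ?_ hPR.le
    have : ((∏ p ∈ Q, p : ℕ) : ℝ) = ∏ p ∈ Q, (p : ℝ) := Nat.cast_prod _ _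
    rw [← this]
    exact hprod
  have hDpos : 0 < D := by
    rw [hD]
    exact Nat.mul_pos (PP_pos z) (pow_pos (prod_pos fun p hp => (hQ p hp).1.pos) 2)
  have hDN : D ≤ N := by
    have h1 : (D : ℝ) ≤ N := by
      refine hDR.trans ?_
      refine le_trans (le_of_eq ?_) (le_trans (Real.exp_le_exp.2 (?_ : Real.log (PP z) +
        2 * (1 + δ) * (k * Real.log k) ≤ Real.log N)) (le_of_eq (Real.exp_log hNR)))
      · rw [Real.exp_add, Real.exp_log hPR]
      have h2 : 2 * (1 + δ) * (k * Real.log k) ≤ 2 * (1 + δ) * (τ * Real.log N) :=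
        mul_le_mul_of_nonneg_left hkk (by positivity)
      have h3 : 2 * (1 + δ) * τ ≤ lam + 1 / 2 := by
        rw [hδ]
        nlinarith
      have h4 : 2 * (1 + δ) * (τ * Real.log N) ≤ (lam + 1 / 2) * Real.log N := by
        rw [← mul_assoc]
        exact mul_le_mul_of_nonneg_right h3 g10.le
      linarith
    exact_mod_cast h1
  have hdiv : (N : ℝ) / (2 * D) ≤ ((N / D : ℕ) : ℝ) := by
    rw [div_le_iff₀ (by positivity)]
    have h1 : 1 ≤ N / D := (Nat.one_le_div_iff hDpos).2 hDN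
    have h2 := Nat.div_add_mod N D
    have h3 := Nat.mod_lt N hDpos
    have h4 : N ≤ N / D * (2 * D) := by nlinarith
    exact_mod_cast h4
  have hfinR : ((k.factorial : ℝ)) * ((N : ℝ) / (2 * D)) ≤ runs N (h N) := by
    rw [hQc] at hfin
    refine (mul_le_mul_of_nonneg_left hdiv (Nat.cast_nonneg _)).trans ?_
    exact_mod_cast hfin
  refine le_trans ?_ hfinR
  have hfac := fact_ge k
  have h5 : Real.exp (k * Real.log k - k) * (N / (2 * (PP z * Real.exp (2 * (1 + δ) * (k * Real.log k))))) ≤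
      (k.factorial : ℝ) * ((N : ℝ) / (2 * D)) := by
    refine mul_le_mul hfac ?_ (by positivity) (Nat.cast_nonneg _)
    refine div_le_div_of_nonneg_left hNR.le (by positivity) ?_
    exact mul_le_mul_of_nonneg_left hDR (by norm_num)
  refine le_trans ?_ h5
  have h6 : Real.exp (k * Real.log k - k) * (N / (2 * (PP z * Real.exp (2 * (1 + δ) * (k * Real.log k))))) =
      Real.exp (Real.log N + (k * Real.log k - k) - Real.log (2 * PP z) - 2 * (1 + δ) * (k * Real.log k)) := by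
    generalize (k : ℝ) * Real.log k - k = A
    generalize 2 * (1 + δ) * (k * Real.log k) = B
    rw [Real.exp_sub, Real.exp_sub, Real.exp_add, Real.exp_log hNR, Real.exp_log (by positivity)]
    field_simp
  rw [h6, Real.rpow_def_of_pos hNR, Real.exp_le_exp]
  have h7 : (1 + 2 * δ) * (k * Real.log k) ≤ (1 + 2 * δ) * (τ * Real.log N) :=
    mul_le_mul_of_nonneg_left hkk (by positivity)
  have h8 : (1 + 2 * δ) * τ ≤ lam + e / 2 := by
    rw [hδ]
    nlinarith
  have h9 : (1 + 2 * δ) * (τ * Real.log N) ≤ (lam + e / 2) * Real.log N := by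
    rw [← mul_assoc]
    exact mul_le_mul_of_nonneg_right h8 g10.le
  have h10 : e * Real.log N ≤ ε * Real.log N := mul_le_mul_of_nonneg_right he1 g10.le
  have h11 : 0 < e * Real.log N := mul_pos he0 g10
  linarith

end Pool.Agent.Helper12.SF.Lo
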