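import Pool.Agent.Helper12.SF.Up
import Pool.Agent.Helper12.SF.Lo

/-!
# SF: from runs to gaps
-/

set_option autoImplicit false
set_option maxHeartbeats 800000

open Filter Topology Finset

namespace Pool.Agent.Helper12.SF

open Classical in
/-- The number of squarefree `m ≤ N` such that the distance to the next squarefree number is
larger than `t`. -/
noncomputable def gaps (N : ℕ) (t : ℝ) : ℕ := ((Finset.range (N + 1)).filter fun m => LongGap t m).card

open Classical in
/-- The number of squarefree `m ≤ N` such that the distance to the next squarefree number is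
larger than `lam (π ^ 2 / 6) log m / log log m`. -/
noncomputable def exc (lam : ℝ) (N : ℕ) : ℕ := ((Finset.range (N + 1)).filter fun m : ℕ =>
  LongGap (lam * (Real.pi ^ 2 / 6) * (Real.log m / Real.log (Real.log m))) m).card

lemma run_of_longGap {t : ℝ} {m : ℕ} (h : LongGap t m) : Run m ⌊t⌋₊ := by
  intro i hi1 hi2
  have h1 : (i : ℝ) ≤ t := (Nat.le_floor_iff' (by omega)).1 hi2
  refine h.2 (m + i) (by omega) ?_
  push_cast
  linarith

lemma longGap_anti {t t' : ℝ} (htt : t ≤ t') {m : ℕ} (h : LongGap t' m) : LongGap t m :=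
  ⟨h.1, fun m' h1 h2 => h.2 m' h1 (h2.trans (by linarith))⟩

lemma gaps_le_runs (N : ℕ) (t : ℝ) : gaps N t ≤ runs N ⌊t⌋₊ := by
  classical
  unfold gaps runs
  refine card_le_card fun m hm => ?_
  rw [mem_filter] at hm ⊢
  exact ⟨hm.1, run_of_longGap hm.2⟩

lemma runs_le_gaps (N h H : ℕ) (t : ℝ) (ht : t ≤ h) :
    runs N h ≤ 1 + runs N H + (H + 1) * gaps N t := by
  classical
  have hsub : ((Finset.range (N + 1)).filter fun m => Run m h) ⊆
      ({0} ∪ ((Finset.range (N + 1)).filter fun m => Run m H).image fun m => m + H) ∪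
        ((Finset.range (N + 1)).filter fun m => LongGap t m).biUnion fun g => Finset.Icc g (g + H) := by
    intro m hm
    obtain ⟨h1, h2⟩ := mem_filter.1 hm
    have h1' := mem_range.1 h1
    rcases Nat.eq_zero_or_pos m with h0 | hpos
    · subst h0
      exact mem_union_left _ (mem_union_left _ (mem_singleton_self _))
    · set s := Nat.findGreatest Squarefree m with hs
      have hsm : s ≤ m := Nat.findGreatest_le m
      have hsq : Squarefree s := Nat.findGreatest_spec (m := 1) hpos squarefree_one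
      have hns : ∀ k, s < k → k ≤ m → ¬ Squarefree k := fun k hk hkm =>
        Nat.findGreatest_is_greatest hk hkm
      by_cases hcase : m ≤ s + H
      · refine mem_union_right _ (mem_biUnion.2 ⟨s, mem_filter.2 ⟨mem_range.2 (by omega), hsq, ?_⟩,
          mem_Icc.2 ⟨hsm, hcase⟩⟩)
        intro m' hm1 hm2
        by_cases hm3 : m' ≤ m
        · exact hns m' hm1 hm3
        · push Not at hm3
          have h4 : (m' : ℝ) ≤ (m + h : ℕ) := by
            push_cast
            have : (s : ℝ) ≤ m := by exact_mod_cast hsm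
            linarith
          have h5 : m' ≤ m + h := by exact_mod_cast h4
          have h6 := h2 (m' - m) (by omega) (by omega)
          rwa [Nat.add_sub_cancel' hm3.le] at h6
      · push Not at hcase
        refine mem_union_left _ (mem_union_right _ (mem_image.2 ⟨m - H, mem_filter.2
          ⟨mem_range.2 (by omega), ?_⟩, by omega⟩))
        intro i hi1 hi2
        exact hns _ (by omega) (by omega)
  unfold runs gaps
  refine (card_le_card hsub).trans ((card_union_le _ _).trans ?_)
  refine add_le_add ((card_union_le _ _).trans (add_le_add (by simp) card_image_le)) ?_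
  refine (card_biUnion_le_card_mul _ _ (H + 1) fun g _ => ?_).trans (by rw [mul_comm])
  rw [Nat.card_Icc]
  omega

lemma rpow_ev (e A : ℝ) (he : 0 < e) : ∀ᶠ N : ℕ in atTop, A ≤ (N : ℝ) ^ e :=
  ((tendsto_rpow_atTop he).comp tendsto_natCast_atTop_atTop).eventually_ge_atTop A

theorem gaps_up (hU : S_UP) (lam ε : ℝ) (hl : 0 < lam) (hε : 0 < ε) : ∀ᶠ N : ℕ in atTop,
    (gaps N (lam * (Real.pi ^ 2 / 6) * (Real.log N / Real.log (Real.log N))) : ℝ) ≤
      (N : ℝ) ^ (max (1 - lam) (2 / 3) + ε) := by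
  filter_upwards [hU lam ε hl hε] with N hN
  refine le_trans ?_ hN
  exact_mod_cast gaps_le_runs N _

theorem gaps_lo (hU : S_UP) (hL : S_LO) (lam ε : ℝ) (hl : 0 < lam) (hl3 : lam < 1 / 3)
    (hε : 0 < ε) : ∀ᶠ N : ℕ in atTop, (N : ℝ) ^ (1 - lam - ε) ≤
      gaps N (lam * (Real.pi ^ 2 / 6) * (Real.log N / Real.log (Real.log N))) := by
  set e : ℝ := min ε (1 / 3 - lam) / 4 with he
  have h1 : min ε (1 / 3 - lam) ≤ ε := min_le_left _ _
  have h2 : min ε (1 / 3 - lam) ≤ 1 / 3 - lam := min_le_right _ _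
  have he0 : 0 < e := by
    have : 0 < min ε (1 / 3 - lam) := lt_min hε (by linarith)
    positivity
  have he1 : 4 * e ≤ ε := by rw [he]; linarith
  have he2 : 4 * e ≤ 1 / 3 - lam := by rw [he]; linarith
  have hHs : ∀ᶠ N : ℕ in atTop, ((len 1 N : ℕ) : ℝ) + 1 ≤ (N : ℝ) ^ e := by
    have h3 : ∀ᶠ x : ℝ in atTop, ‖Real.log x‖ ≤ (1 / (2 * c0)) * ‖x ^ e‖ :=
      (isLittleO_log_rpow_atTop he0).bound (by have := c0_pos; positivity)
    have h4 := (tendsto_natCast_atTop_atTop (R := ℝ)).eventually h3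
    filter_upwards [len_le one_pos, h4, rpow_ev e 2 he0] with N h5 h6 h7
    have hc := c0_pos
    have h8 : Real.log N ≤ 1 / (2 * c0) * (N : ℝ) ^ e := by
      refine (le_abs_self _).trans ?_
      have : ‖(N : ℝ) ^ e‖ = (N : ℝ) ^ e := by
        rw [Real.norm_eq_abs, abs_of_nonneg (Real.rpow_nonneg (Nat.cast_nonneg _) _)]
      rw [this] at h6
      exact h6
    have h9 : 1 * c0 * Real.log N ≤ (N : ℝ) ^ e / 2 := by
      calc 1 * c0 * Real.log N ≤ 1 * c0 * (1 / (2 * c0) * (N : ℝ) ^ e) :=
            mul_le_mul_of_nonneg_left h8 (by positivity)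
        _ = (N : ℝ) ^ e / 2 := by field_simp
    linarith
  filter_upwards [hL lam e hl (by linarith) he0, hU 1 e one_pos he0, hHs, rpow_ev e 2 he0,
    rpow_ev (2 / 3 + e) 1 (by positivity), rpow_ev (2 * e) 4 (by positivity),
    eventually_ge_atTop 1] with N g1 g2 g3 g4 g5 g6 g7
  have hN : (0 : ℝ) < N := by exact_mod_cast g7
  have ht : lam * (Real.pi ^ 2 / 6) * (Real.log N / Real.log (Real.log N)) ≤ (len lam N + 1 : ℕ) := by
    push_cast
    exact (Nat.lt_floor_add_one _).le
  have hmain := runs_le_gaps N (len lam N + 1) (len 1 N) _ ht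
  have hmainR : (runs N (len lam N + 1) : ℝ) ≤ 1 + runs N (len 1 N) + ((len 1 N : ℕ) + 1) *
      gaps N (lam * (Real.pi ^ 2 / 6) * (Real.log N / Real.log (Real.log N))) := by
    exact_mod_cast hmain
  set g : ℝ := ((gaps N (lam * (Real.pi ^ 2 / 6) * (Real.log N / Real.log (Real.log N))) : ℕ) : ℝ) with hg
  have hg0 : 0 ≤ g := Nat.cast_nonneg _
  have g2' : (runs N (len 1 N) : ℝ) ≤ (N : ℝ) ^ (2 / 3 + e) := by
    have : max ((1 : ℝ) - 1) (2 / 3) = 2 / 3 := by rw [max_eq_right]; norm_num
    rw [this] at g2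
    exact g2
  have h5 : (N : ℝ) ^ (1 - lam - e) ≤ 2 * (N : ℝ) ^ (2 / 3 + e) + (N : ℝ) ^ e * g := by
    have := mul_le_mul_of_nonneg_right g3 hg0
    linarith
  have h6 : (N : ℝ) ^ (2 / 3 + e) * 4 ≤ (N : ℝ) ^ (1 - lam - e) := by
    calc (N : ℝ) ^ (2 / 3 + e) * 4 ≤ (N : ℝ) ^ (2 / 3 + e) * (N : ℝ) ^ (2 * e) :=
          mul_le_mul_of_nonneg_left g6 (Real.rpow_nonneg hN.le _)
      _ = (N : ℝ) ^ (2 / 3 + e + 2 * e) := (Real.rpow_add hN _ _).symm
      _ ≤ (N : ℝ) ^ (1 - lam - e) := Real.rpow_le_rpow_of_exponent_le (by exact_mod_cast g7) (by linarith)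
  have h7 : (N : ℝ) ^ (1 - lam - e) ≤ 2 * ((N : ℝ) ^ e * g) := by linarith
  have h8 : (N : ℝ) ^ (1 - lam - e) ≤ (N : ℝ) ^ (2 * e) * g := by
    calc (N : ℝ) ^ (1 - lam - e) ≤ 2 * ((N : ℝ) ^ e * g) := h7
      _ ≤ (N : ℝ) ^ e * ((N : ℝ) ^ e * g) :=
          mul_le_mul_of_nonneg_right g4 (mul_nonneg (Real.rpow_nonneg hN.le _) hg0)
      _ = (N : ℝ) ^ (2 * e) * g := by
          rw [← mul_assoc, ← Real.rpow_add hN, two_mul]
  have h9 : (N : ℝ) ^ (1 - lam - e) = (N : ℝ) ^ (2 * e) * (N : ℝ) ^ (1 - lam - 3 * e) := by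
    rw [← Real.rpow_add hN]
    congr 1
    ring
  rw [h9] at h8
  have h10 := le_of_mul_le_mul_left h8 (Real.rpow_pos_of_pos hN _)
  refine le_trans ?_ h10
  exact Real.rpow_le_rpow_of_exponent_le (by exact_mod_cast g7) (by linarith)

lemma div_log_mono {x y : ℝ} (hx : Real.exp 1 ≤ x) (hxy : x ≤ y) :
    x / Real.log x ≤ y / Real.log y := by
  have h1 := Real.log_div_self_antitoneOn (show x ∈ {x : ℝ | Real.exp 1 ≤ x} from hx)
    (show y ∈ {x : ℝ | Real.exp 1 ≤ x} from hx.trans hxy) hxy
  simp only at h1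
  have he : 1 < Real.exp 1 := Real.one_lt_exp_iff.2 one_pos
  have hx1 : 0 < Real.log x := Real.log_pos (he.trans_le hx)
  have hy1 : 0 < Real.log y := Real.log_pos (he.trans_le (hx.trans hxy))
  have hx0 : 0 < x := (Real.exp_pos 1).trans_le hx
  have hy0 : 0 < y := (Real.exp_pos 1).trans_le (hx.trans hxy)
  have h2 := one_div_le_one_div_of_le (div_pos hy1 hy0) h1
  rwa [one_div_div, one_div_div] at h2

theorem exc_lo (hU : S_UP) (hL : S_LO) (lam ε : ℝ) (hl : 0 < lam) (hl3 : lam < 1 / 3)
    (hε : 0 < ε) : ∀ᶠ N : ℕ in atTop, (N : ℝ) ^ (1 - lam - ε) ≤ exc lam N := by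
  classical
  set e : ℝ := min ε (1 / 3) / 2 with he
  have h1 : min ε (1 / 3) ≤ ε := min_le_left _ _
  have h2 : min ε (1 / 3) ≤ 1 / 3 := min_le_right _ _
  have he0 : 0 < e := by
    have : 0 < min ε (1 / 3) := lt_min hε (by norm_num)
    positivity
  have he1 : 2 * e ≤ ε := by rw [he]; linarith
  have he2 : e ≤ 1 / 6 := by rw [he]; linarith
  set m1 : ℕ := ⌈Real.exp (Real.exp 1)⌉₊ with hm1
  filter_upwards [gaps_lo hU hL lam e hl hl3 he0, rpow_ev e 2 he0,
    rpow_ev (1 - lam - e) (2 * (m1 + 1)) (by linarith), eventually_ge_atTop 1] with N g1 g2 g3 g4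
  have hN : (0 : ℝ) < N := by exact_mod_cast g4
  have hN1 : (1 : ℝ) ≤ N := by exact_mod_cast g4
  have hsub : ((Finset.range (N + 1)).filter fun m =>
      LongGap (lam * (Real.pi ^ 2 / 6) * (Real.log N / Real.log (Real.log N))) m) ⊆
      Finset.range (m1 + 1) ∪ ((Finset.range (N + 1)).filter fun m : ℕ =>
        LongGap (lam * (Real.pi ^ 2 / 6) * (Real.log m / Real.log (Real.log m))) m) := by
    intro m hm
    obtain ⟨h3, h4⟩ := mem_filter.1 hm
    have hmN : m ≤ N := by have := mem_range.1 h3; omega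
    by_cases hcase : m < m1 + 1
    · exact mem_union_left _ (mem_range.2 hcase)
    · refine mem_union_right _ (mem_filter.2 ⟨h3, longGap_anti ?_ h4⟩)
      have h5 : m1 ≤ m := by omega
      have h6 : Real.exp (Real.exp 1) ≤ m := (Nat.le_ceil _).trans (by exact_mod_cast h5)
      have hm0 : (0 : ℝ) < m := (Real.exp_pos _).trans_le h6
      have h7 : Real.exp 1 ≤ Real.log m := by
        rw [Real.le_log_iff_exp_le hm0]
        exact h6
      have h8 : Real.log m ≤ Real.log N := Real.log_le_log hm0 (by exact_mod_cast hmN)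
      have h9 : 0 < Real.pi ^ 2 / 6 := c0_pos
      exact mul_le_mul_of_nonneg_left (div_log_mono h7 h8) (by positivity)
  have hcard := (card_le_card hsub).trans (card_union_le _ _)
  rw [card_range] at hcard
  have hcardR : (gaps N (lam * (Real.pi ^ 2 / 6) * (Real.log N / Real.log (Real.log N))) : ℝ) ≤
      ((m1 : ℝ) + 1) + exc lam N := by
    unfold gaps exc
    exact_mod_cast hcard
  have h10 : (N : ℝ) ^ (1 - lam - e) ≤ 2 * exc lam N := by linarith
  have h11 : (N : ℝ) ^ (1 - lam - e) = (N : ℝ) ^ e * (N : ℝ) ^ (1 - lam - 2 * e) := by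
    rw [← Real.rpow_add hN]
    congr 1
    ring
  have h12 : 2 * (N : ℝ) ^ (1 - lam - 2 * e) ≤ (N : ℝ) ^ (1 - lam - e) := by
    rw [h11]
    exact mul_le_mul_of_nonneg_right g2 (Real.rpow_nonneg hN.le _)
  have h13 : (N : ℝ) ^ (1 - lam - 2 * e) ≤ exc lam N := by linarith
  refine le_trans ?_ h13
  exact Real.rpow_le_rpow_of_exponent_le hN1 (by linarith)

theorem exc_up (hU : S_UP) (lam ε : ℝ) (hl : 0 < lam) (hε : 0 < ε) : ∀ᶠ N : ℕ in atTop,
    (exc lam N : ℝ) ≤ (N : ℝ) ^ (max (1 - lam) (2 / 3) + ε) := by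
  classical
  set a : ℝ := max (1 - lam) (2 / 3) + ε / 2 with ha
  have ha1 : 2 / 3 ≤ a := by
    have := le_max_right (1 - lam) (2 / 3)
    rw [ha]; linarith
  set lam' : ℝ := max (lam / 2) (lam - ε / 4) with hlam'
  have hl'0 : 0 < lam' := lt_of_lt_of_le (by positivity) (le_max_left _ _)
  have hl'1 : lam' < lam := max_lt (by linarith) (by linarith)
  have hl'2 : lam - ε / 4 ≤ lam' := le_max_right _ _
  -- one dyadic block
  have hblock : ∀ᶠ M : ℕ in atTop, (exc lam M : ℝ) ≤ exc lam (M / 2) + (M : ℝ) ^ a := by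
    have hlog : ∀ᶠ M : ℕ in atTop, Real.log 2 / (1 - lam' / lam) ≤ Real.log M :=
      tendsto_L.eventually_ge_atTop _
    filter_upwards [gaps_up hU lam' (ε / 4) hl'0 (by positivity), hlog,
      tendsto_L.eventually_ge_atTop 3, eventually_ge_atTop 2] with M g1 g2 g3 g4
    have hM : (0 : ℝ) < M := by
      have : 0 < M := by omega
      exact_mod_cast this
    have hM1 : (1 : ℝ) ≤ M := by
      have : 1 ≤ M := by omega
      exact_mod_cast this
    have hsub : ((Finset.range (M + 1)).filter fun m : ℕ =>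
        LongGap (lam * (Real.pi ^ 2 / 6) * (Real.log m / Real.log (Real.log m))) m) ⊆
        ((Finset.range (M / 2 + 1)).filter fun m : ℕ =>
          LongGap (lam * (Real.pi ^ 2 / 6) * (Real.log m / Real.log (Real.log m))) m) ∪
        ((Finset.range (M + 1)).filter fun m : ℕ =>
          LongGap (lam' * (Real.pi ^ 2 / 6) * (Real.log M / Real.log (Real.log M))) m) := by
      intro m hm
      obtain ⟨h3, h4⟩ := mem_filter.1 hm
      have hmM : m ≤ M := by have := mem_range.1 h3; omega
      by_cases hcase : m < M / 2 + 1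
      · exact mem_union_left _ (mem_filter.2 ⟨mem_range.2 hcase, h4⟩)
      · refine mem_union_right _ (mem_filter.2 ⟨h3, longGap_anti ?_ h4⟩)
        have h5 : M ≤ 2 * m := by omega
        have h5R : (M : ℝ) ≤ 2 * m := by exact_mod_cast h5
        have hm0 : (0 : ℝ) < m := by linarith
        have h6 : Real.log M - Real.log 2 ≤ Real.log m := by
          have := Real.log_le_log hM h5R
          rw [Real.log_mul (by norm_num) hm0.ne'] at this
          linarith
        have hlog2 : Real.log 2 < 1 := by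
          have := Real.log_two_lt_d9
          linarith
        have h7 : 1 < Real.log m := by linarith
        have h8 : 0 < Real.log (Real.log m) := Real.log_pos h7
        have h9 : Real.log (Real.log m) ≤ Real.log (Real.log M) :=
          Real.log_le_log (by linarith) (Real.log_le_log hm0 (by exact_mod_cast hmM))
        have h10 : lam' * Real.log M ≤ lam * Real.log m := by
          have hpos : 0 < 1 - lam' / lam := by
            rw [sub_pos, div_lt_one hl]
            exact hl'1
          rw [div_le_iff₀ hpos] at g2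
          have h11 : lam * Real.log 2 ≤ (lam - lam') * Real.log M := by
            have h12 := mul_le_mul_of_nonneg_left g2 hl.le
            have h13 : lam * (Real.log M * (1 - lam' / lam)) = (lam - lam') * Real.log M := by
              field_simp
            rw [h13] at h12
            exact h12
          have h14 := mul_le_mul_of_nonneg_left h6 hl.le
          linarith
        have h15 : 0 < Real.pi ^ 2 / 6 := c0_pos
        have h16 : lam' * Real.log M / Real.log (Real.log M) ≤
            lam * Real.log m / Real.log (Real.log m) :=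
          div_le_div₀ (by positivity) h10 h8 h9
        calc lam' * (Real.pi ^ 2 / 6) * (Real.log M / Real.log (Real.log M)) =
            Real.pi ^ 2 / 6 * (lam' * Real.log M / Real.log (Real.log M)) := by ring
          _ ≤ Real.pi ^ 2 / 6 * (lam * Real.log m / Real.log (Real.log m)) :=
              mul_le_mul_of_nonneg_left h16 h15.le
          _ = _ := by ring
    have hcard := (card_le_card hsub).trans (card_union_le _ _)
    have hcardR : (exc lam M : ℝ) ≤ exc lam (M / 2) +
        gaps M (lam' * (Real.pi ^ 2 / 6) * (Real.log M / Real.log (Real.log M))) := by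
      unfold gaps exc
      exact_mod_cast hcard
    refine hcardR.trans (add_le_add le_rfl (g1.trans ?_))
    refine Real.rpow_le_rpow_of_exponent_le hM1 ?_
    have h17 : max (1 - lam') (2 / 3) ≤ max (1 - lam) (2 / 3) + ε / 4 := by
      refine max_le ?_ ?_
      · have := le_max_left (1 - lam) (2 / 3)
        linarith
      · have := le_max_right (1 - lam) (2 / 3)
        linarith
    rw [ha]
    linarith
  obtain ⟨M0, hM0⟩ := eventually_atTop.1 hblock
  have hhalf : ((1 : ℝ) / 2) ^ a ≤ 2 / 3 := by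
    have h1 : ((1 : ℝ) / 2) ^ a ≤ (1 / 2) ^ ((2 : ℝ) / 3) :=
      Real.rpow_le_rpow_of_exponent_ge (by norm_num) (by norm_num) ha1
    refine h1.trans ?_
    have h2 : (((1 : ℝ) / 2) ^ ((2 : ℝ) / 3)) ^ 3 = 1 / 4 := by
      rw [← Real.rpow_natCast, ← Real.rpow_mul (by norm_num)]
      norm_num
    have h3 : 0 ≤ ((1 : ℝ) / 2) ^ ((2 : ℝ) / 3) := by positivity
    by_contra hcon
    push Not at hcon
    have h4 : ((2 : ℝ) / 3) ^ 3 < (((1 : ℝ) / 2) ^ ((2 : ℝ) / 3)) ^ 3 :=
      pow_lt_pow_left₀ hcon (by norm_num) (by norm_num)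
    rw [h2] at h4
    norm_num at h4
  have hall : ∀ N : ℕ, (exc lam N : ℝ) ≤ (M0 + 1) + 3 * (N : ℝ) ^ a := by
    intro N
    induction N using Nat.strong_induction_on with
    | _ N ih =>
      rcases Nat.lt_or_ge N (M0 + 1) with hlt | hge
      · have h1 : exc lam N ≤ N + 1 := by
          unfold exc
          refine (card_filter_le _ _).trans ?_
          rw [card_range]
        have h2 : (exc lam N : ℝ) ≤ M0 + 1 := by
          have : exc lam N ≤ M0 + 1 := by omega
          exact_mod_cast this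
        have h3 : 0 ≤ 3 * (N : ℝ) ^ a := by positivity
        linarith
      · have h1 := ih (N / 2) (Nat.div_lt_self (by omega) (by norm_num))
        have h2 := hM0 N (by omega)
        have h3 : ((N / 2 : ℕ) : ℝ) ≤ 1 / 2 * N := by
          have : ((N / 2 : ℕ) : ℝ) ≤ (N : ℝ) / 2 := Nat.cast_div_le
          linarith
        have h4 : ((N / 2 : ℕ) : ℝ) ^ a ≤ 2 / 3 * (N : ℝ) ^ a := by
          refine (Real.rpow_le_rpow (Nat.cast_nonneg _) h3 (by linarith)).trans ?_
          rw [Real.mul_rpow (by norm_num) (Nat.cast_nonneg _)]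
          exact mul_le_mul_of_nonneg_right hhalf (by positivity)
        linarith
  filter_upwards [rpow_ev (ε / 2) 4 (by positivity), rpow_ev a (M0 + 1) (by linarith),
    eventually_ge_atTop 1] with N g1 g2 g3
  have hN : (0 : ℝ) < N := by exact_mod_cast g3
  calc (exc lam N : ℝ) ≤ (M0 + 1) + 3 * (N : ℝ) ^ a := hall N
    _ ≤ 4 * (N : ℝ) ^ a := by linarith
    _ ≤ (N : ℝ) ^ (ε / 2) * (N : ℝ) ^ a := mul_le_mul_of_nonneg_right g1 (by positivity)
    _ = (N : ℝ) ^ (max (1 - lam) (2 / 3) + ε) := by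
        rw [← Real.rpow_add hN, ha]
        congr 1
        ring

end Pool.Agent.Helper12.SF
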