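import Pool.Agent.Helper12.SF.Defs

/-!
# SF: PROD
-/

set_option autoImplicit false

open Filter Topology

namespace Pool.Agent.Helper12.SF.Prod

open Pool.Agent.Helper12.SF

lemma one_add_le {x s : ℝ} (hx : 0 ≤ x) (hs : 0 < s) (hs1 : s ≤ 1) :
    1 + x ≤ Real.exp ((1 / s) * x ^ s) := by
  have h1 : (1 + x) ^ s ≤ 1 + x ^ s := by
    have := Real.rpow_add_le_add_rpow (p := s) (zero_le_one : (0 : ℝ) ≤ 1) hx hs.le hs1
    simpa using this
  have h2 : 1 + x ^ s ≤ Real.exp (x ^ s) := by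
    have := Real.add_one_le_exp (x ^ s)
    linarith
  have h3 : 1 + x = ((1 + x) ^ s) ^ (1 / s) := by
    rw [← Real.rpow_mul (by linarith), mul_one_div_cancel hs.ne', Real.rpow_one]
  rw [h3]
  calc ((1 + x) ^ s) ^ (1 / s) ≤ (Real.exp (x ^ s)) ^ (1 / s) :=
        Real.rpow_le_rpow (Real.rpow_nonneg (by linarith) _) (h1.trans h2) (by positivity)
    _ = Real.exp ((1 / s) * x ^ s) := by rw [← Real.exp_mul, mul_comm]

theorem main : S_PROD := by
  intro b s hs hs1 hbs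
  have hsum : Summable (fun n : ℕ => ((n : ℝ) ^ (b * s))⁻¹) := Real.summable_nat_rpow_inv.2 hbs
  set Z := ∑' n : ℕ, ((n : ℝ) ^ (b * s))⁻¹ with hZ
  have hZ0 : 0 ≤ Z := tsum_nonneg fun n => by positivity
  refine ⟨(1 / s) * (Z + 1), by positivity, ?_⟩
  intro A hA S hS
  have h1 : ∀ n ∈ S, 1 + A / (n : ℝ) ^ b ≤
      Real.exp ((1 / s) * A ^ s * ((n : ℝ) ^ (b * s))⁻¹) := by
    intro n hn
    have hn0 : (0 : ℝ) < n := by exact_mod_cast hS n hn
    refine (one_add_le (by positivity) hs hs1).trans (le_of_eq ?_)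
    congr 1
    rw [Real.div_rpow hA (by positivity), ← Real.rpow_mul hn0.le]
    ring
  calc ∏ n ∈ S, (1 + A / (n : ℝ) ^ b) ≤
      ∏ n ∈ S, Real.exp ((1 / s) * A ^ s * ((n : ℝ) ^ (b * s))⁻¹) :=
        Finset.prod_le_prod (fun n _ => by positivity) h1
    _ = Real.exp (∑ n ∈ S, (1 / s) * A ^ s * ((n : ℝ) ^ (b * s))⁻¹) := (Real.exp_sum _ _).symm
    _ ≤ Real.exp ((1 / s) * (Z + 1) * A ^ s) := by
        rw [Real.exp_le_exp, ← Finset.mul_sum]
        have h2 : ∑ n ∈ S, ((n : ℝ) ^ (b * s))⁻¹ ≤ Z :=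
          hsum.sum_le_tsum S fun n _ => by positivity
        have h3 : 0 ≤ (1 / s) * A ^ s := by positivity
        calc (1 / s) * A ^ s * ∑ n ∈ S, ((n : ℝ) ^ (b * s))⁻¹ ≤ (1 / s) * A ^ s * (Z + 1) :=
              mul_le_mul_of_nonneg_left (by linarith) h3
          _ = (1 / s) * (Z + 1) * A ^ s := by ring

end Pool.Agent.Helper12.SF.Prod
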