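import Pool.Agent.Helper12.SF.UpFin
import Pool.Agent.Helper12.SF.Asym

/-!
# SF: the upper bound
-/

set_option autoImplicit false

open Filter Topology

namespace Pool.Agent.Helper12.SF

lemma len_le_self {lam : ℝ} (hl : 0 < lam) : ∀ᶠ N : ℕ in atTop, len lam N ≤ N := by
  have h1 : ∀ᶠ x : ℝ in atTop, ‖Real.log x‖ ≤ (1 / (lam * c0)) * ‖x‖ :=
    Real.isLittleO_log_id_atTop.bound (by have := c0_pos; positivity)
  have h2 := (tendsto_natCast_atTop_atTop (R := ℝ)).eventually h1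
  filter_upwards [len_le hl, h2] with N h3 h4
  have h5 : Real.log N ≤ 1 / (lam * c0) * N := by
    refine (le_abs_self _).trans ?_
    simpa using h4
  have h0 := mul_pos hl c0_pos
  have h6 : (len lam N : ℝ) ≤ N := by
    refine h3.trans ?_
    calc lam * c0 * Real.log N ≤ lam * c0 * (1 / (lam * c0) * N) :=
          mul_le_mul_of_nonneg_left h5 h0.le
      _ = N := by
          rw [← mul_assoc, mul_one_div_cancel h0.ne', one_mul]
  exact_mod_cast h6

lemma exp_le_pow {N : ℕ} (hN : 0 < N) {x e : ℝ} (h : x ≤ e * Real.log N) :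
    Real.exp x ≤ (N : ℝ) ^ e := by
  rw [Real.rpow_def_of_pos (by exact_mod_cast hN), Real.exp_le_exp, mul_comm]
  exact h

theorem up (hBT : S_BT) (hP : S_PROD) (hF : S_FEW) : S_UP := by
  intro lam ε hl hε
  have hc := c0_pos
  have hlc := mul_pos hl hc
  -- parameters
  set η : ℝ := min 1 (3 * ε / 8) with hη
  have hη0 : 0 < η := lt_min one_pos (by positivity)
  have hη1 : η ≤ 1 := min_le_left _ _
  have hη2 : η ≤ 3 * ε / 8 := min_le_right _ _
  set δ : ℝ := min (1 / 2) (ε / (12 * lam)) with hδ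
  have hδ0 : 0 < δ := lt_min (by norm_num) (by positivity)
  have hδ1 : δ ≤ 1 / 2 := min_le_left _ _
  have hδ2 : 3 * δ * lam ≤ ε / 4 := by
    have h1 : δ ≤ ε / (12 * lam) := min_le_right _ _
    rw [le_div_iff₀ (by positivity)] at h1
    linarith
  obtain ⟨C, hC0, hC⟩ := hP (1 + η) (1 / (1 + η / 2)) (by positivity)
    (by rw [div_le_one (by positivity)]; linarith)
    (by rw [mul_one_div, lt_div_iff₀ (by positivity)]; linarith)
  obtain ⟨C', hC'0, hC'⟩ := hP 2 (1 / 2 + δ / 8) (by positivity) (by linarith) (by linarith)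
  have e1 := len_small hl (e := 1 / (1 + η / 2)) (by positivity)
    (by rw [div_lt_one (by positivity)]; linarith) C (ε / 4) hC0.le (by positivity)
  have e2 := len_small hl (e := (2 - δ) * (1 / 2 + δ / 8))
    (mul_nonneg (by linarith) (by positivity)) (by nlinarith) C' (ε / 4) hC'0.le (by positivity)
  have e3 := (len_tendsto hl).eventually (hF (δ / c0) (by positivity))
  have e4 : ∀ᶠ N : ℕ in atTop, (1 - δ) * (lam * c0) ≤
      (len lam N : ℝ) * Real.log (len lam N) / Real.log N := by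
    have h1 : (1 - δ) * (lam * c0) < lam * c0 := by nlinarith
    filter_upwards [(len_mul_log hl).eventually (lt_mem_nhds h1)] with N h using h.le
  have e5 := (len_tendsto hl).eventually_ge_atTop 1
  have e6 : ∀ᶠ N : ℕ in atTop, (4 : ℝ) ≤ (N : ℝ) ^ (ε / 2) :=
    ((tendsto_rpow_atTop (by positivity)).comp tendsto_natCast_atTop_atTop).eventually_ge_atTop 4
  filter_upwards [e1, e2, e3, e4, e5, e6, eventually_ge_atTop 8, len_le_self hl,
    tendsto_L.eventually_gt_atTop 0] with N e1 e2 e3 e4 e5 e6 e7 e8 e9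
  set h := len lam N with hh
  have hN0 : 0 < N := by omega
  have hNr : (0 : ℝ) < N := by exact_mod_cast hN0
  have hNr1 : (1 : ℝ) ≤ N := by exact_mod_cast hN0
  have hhr : (1 : ℝ) ≤ h := by exact_mod_cast e5
  have hh0 : (0 : ℝ) < h := by linarith
  have hfin := up_finite hBT N h ((6 / Real.pi ^ 2 - δ / c0) * h) ((h : ℝ) ^ (1 - δ)) (1 + η)
    e7 e8 (by linarith) (by linarith) (Real.one_le_rpow hhr (by linarith)) e3
  have hmem : ∀ n ∈ Finset.Icc 1 (2 * N), 1 ≤ n := fun n hn => (Finset.mem_Icc.1 hn).1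
  have p1 : ∏ n ∈ Finset.Icc 1 (2 * N), (1 + (h : ℝ) / (n : ℝ) ^ (1 + η)) ≤
      (N : ℝ) ^ (ε / 4) :=
    (hC h hh0.le _ hmem).trans (exp_le_pow hN0 e1)
  have p2 : ∏ n ∈ Finset.Icc 1 (2 * N), (1 + ((h : ℝ) ^ (1 - δ) * h) / (n : ℝ) ^ (2 : ℝ)) ≤
      (N : ℝ) ^ (ε / 4) := by
    refine (hC' _ (by positivity) _ hmem).trans (exp_le_pow hN0 ?_)
    have h1 : (h : ℝ) ^ (1 - δ) * h = (h : ℝ) ^ (2 - δ) := by
      have h2 : (h : ℝ) ^ (1 - δ) * (h : ℝ) ^ (1 : ℝ) = (h : ℝ) ^ (2 - δ) := by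
        rw [← Real.rpow_add hh0]
        congr 1
        ring
      rwa [Real.rpow_one] at h2
    rw [h1, ← Real.rpow_mul hh0.le]
    exact e2
  have p3 : ((h : ℝ) ^ (1 - δ)) ^ (-((6 / Real.pi ^ 2 - δ / c0) * h)) ≤ (N : ℝ) ^ (-lam + ε / 4) := by
    rw [← Real.rpow_mul hh0.le, Real.rpow_def_of_pos hh0]
    refine exp_le_pow hN0 ?_
    rw [inv_c0]
    rw [le_div_iff₀ e9] at e4
    have h1 : Real.log h * ((1 - δ) * -((1 / c0 - δ / c0) * h)) =
        -((1 - δ) ^ 2 / c0) * (h * Real.log h) := by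
      field_simp
    rw [h1]
    have h2 : (1 - δ) ^ 2 / c0 * ((1 - δ) * (lam * c0) * Real.log N) ≤
        (1 - δ) ^ 2 / c0 * (h * Real.log h) :=
      mul_le_mul_of_nonneg_left e4 (by positivity)
    have h3 : (1 - δ) ^ 2 / c0 * ((1 - δ) * (lam * c0) * Real.log N) =
        (1 - δ) ^ 3 * lam * Real.log N := by
      field_simp
    have h4 : 1 - 3 * δ ≤ (1 - δ) ^ 3 := by nlinarith [sq_nonneg δ]
    have h5 : lam - ε / 4 ≤ (1 - δ) ^ 3 * lam := by
      have := mul_le_mul_of_nonneg_right h4 hl.le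
      linarith
    have h6 := mul_le_mul_of_nonneg_right h5 e9.le
    linarith
  set m := max (1 - lam) (2 / 3) with hm
  have q1 : 2 * (N : ℝ) ^ (2 * (1 + η) / 3) *
      ∏ n ∈ Finset.Icc 1 (2 * N), (1 + (h : ℝ) / (n : ℝ) ^ (1 + η)) ≤
      2 * (N : ℝ) ^ (m + ε / 2) := by
    calc 2 * (N : ℝ) ^ (2 * (1 + η) / 3) *
          ∏ n ∈ Finset.Icc 1 (2 * N), (1 + (h : ℝ) / (n : ℝ) ^ (1 + η)) ≤
          2 * (N : ℝ) ^ (2 * (1 + η) / 3) * (N : ℝ) ^ (ε / 4) :=
          mul_le_mul_of_nonneg_left p1 (by positivity)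
      _ = 2 * (N : ℝ) ^ (2 * (1 + η) / 3 + ε / 4) := by rw [mul_assoc, ← Real.rpow_add hNr]
      _ ≤ 2 * (N : ℝ) ^ (m + ε / 2) := by
          refine mul_le_mul_of_nonneg_left ?_ (by norm_num)
          refine Real.rpow_le_rpow_of_exponent_le hNr1 ?_
          have := le_max_right (1 - lam) (2 / 3 : ℝ)
          linarith
  have q2 : 2 * (N : ℝ) * ((h : ℝ) ^ (1 - δ)) ^ (-((6 / Real.pi ^ 2 - δ / c0) * h)) *
      ∏ n ∈ Finset.Icc 1 (2 * N), (1 + ((h : ℝ) ^ (1 - δ) * h) / (n : ℝ) ^ (2 : ℝ)) ≤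
      2 * (N : ℝ) ^ (m + ε / 2) := by
    calc 2 * (N : ℝ) * ((h : ℝ) ^ (1 - δ)) ^ (-((6 / Real.pi ^ 2 - δ / c0) * h)) *
          ∏ n ∈ Finset.Icc 1 (2 * N), (1 + ((h : ℝ) ^ (1 - δ) * h) / (n : ℝ) ^ (2 : ℝ)) ≤
          2 * (N : ℝ) * (N : ℝ) ^ (-lam + ε / 4) * (N : ℝ) ^ (ε / 4) := by
          refine mul_le_mul ?_ p2 (Finset.prod_nonneg fun n _ => by positivity) (by positivity)
          exact mul_le_mul_of_nonneg_left p3 (by positivity)
      _ = 2 * ((N : ℝ) ^ (1 : ℝ) * (N : ℝ) ^ (-lam + ε / 4) * (N : ℝ) ^ (ε / 4)) := by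
          rw [Real.rpow_one]
          ring
      _ = 2 * (N : ℝ) ^ (1 + (-lam + ε / 4) + ε / 4) := by
          rw [← Real.rpow_add hNr, ← Real.rpow_add hNr]
      _ ≤ 2 * (N : ℝ) ^ (m + ε / 2) := by
          refine mul_le_mul_of_nonneg_left ?_ (by norm_num)
          refine Real.rpow_le_rpow_of_exponent_le hNr1 ?_
          have := le_max_left (1 - lam) (2 / 3 : ℝ)
          linarith
  have q3 : (N : ℝ) ^ (m + ε) = (N : ℝ) ^ (m + ε / 2) * (N : ℝ) ^ (ε / 2) := by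
    rw [← Real.rpow_add hNr]
    congr 1
    ring
  rw [q3]
  have q4 : (N : ℝ) ^ (m + ε / 2) * 4 ≤ (N : ℝ) ^ (m + ε / 2) * (N : ℝ) ^ (ε / 2) :=
    mul_le_mul_of_nonneg_left e6 (by positivity)
  linarith

end Pool.Agent.Helper12.SF
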