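import Pool.Agent.Helper12.SF.Defs

/-!
# SF: the upper bound, finite part
-/

set_option autoImplicit false

open Filter Topology

namespace Pool.Agent.Helper12.SF

lemma exists_mid (A : ℝ) (hA : 1 ≤ A) (S : Finset ℕ) (h1 : ∀ p ∈ S, (1 : ℝ) ≤ p)
    (h2 : ∀ p ∈ S, (p : ℝ) ≤ A ^ 2) (h3 : A ≤ ∏ p ∈ S, (p : ℝ)) :
    ∃ T ⊆ S, A ≤ ∏ p ∈ T, (p : ℝ) ∧ ∏ p ∈ T, (p : ℝ) ≤ A ^ 2 := by
  classical
  induction S using Finset.induction_on with
  | empty =>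
    refine ⟨∅, le_rfl, h3, ?_⟩
    rw [Finset.prod_empty]
    exact one_le_pow₀ hA
  | insert a S ha ih =>
    rcases le_or_gt A (∏ p ∈ S, (p : ℝ)) with h | h
    · obtain ⟨T, hT, h4⟩ := ih (fun p hp => h1 p (Finset.mem_insert_of_mem hp))
        (fun p hp => h2 p (Finset.mem_insert_of_mem hp)) h
      exact ⟨T, hT.trans (Finset.subset_insert _ _), h4⟩
    · rcases le_or_gt A (a : ℝ) with h4 | h4
      · refine ⟨{a}, ?_, ?_, ?_⟩
        · simp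
        · simpa using h4
        · simpa using h2 a (Finset.mem_insert_self _ _)
      · refine ⟨insert a S, le_rfl, h3, ?_⟩
        rw [Finset.prod_insert ha, sq]
        have h5 : (0 : ℝ) ≤ a := by positivity
        exact mul_le_mul h4.le h.le (Finset.prod_nonneg fun p _ => by positivity) (by linarith)

lemma one_le_prod (T : Finset ℕ) (hT : ∀ p ∈ T, p.Prime) : (1 : ℝ) ≤ ∏ p ∈ T, (p : ℝ) := by
  have : (1 : ℝ) = ∏ p ∈ T, 1 := by simp
  rw [this]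
  exact Finset.prod_le_prod (fun _ _ => zero_le_one) fun p hp => by
    exact_mod_cast (hT p hp).one_lt.le

lemma prod_g (T : Finset ℕ) (A b : ℝ) :
    ∏ p ∈ T, (A / (p : ℝ) ^ b) = A ^ T.card / (∏ p ∈ T, (p : ℝ)) ^ b := by
  rw [Finset.prod_div_distrib, Finset.prod_const, Real.finsetProd_rpow _ _ fun _ _ => by positivity]

lemma sum_powerset_le (S : Finset ℕ) (𝒯 : Finset (Finset ℕ)) (h𝒯 : 𝒯 ⊆ S.powerset) (A b : ℝ)
    (hA : 0 ≤ A) : ∑ T ∈ 𝒯, A ^ T.card / (∏ p ∈ T, (p : ℝ)) ^ b ≤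
      ∏ p ∈ S, (1 + A / (p : ℝ) ^ b) := by
  rw [Finset.prod_one_add]
  refine (Finset.sum_le_sum_of_subset_of_nonneg h𝒯 fun T _ _ => ?_).trans (le_of_eq ?_)
  · positivity
  · exact Finset.sum_congr rfl fun T _ => (prod_g T A b).symm

lemma term_a (N A Q b : ℝ) (hA : 1 ≤ A) (hN : N = A ^ 3) (hb : 1 ≤ b) (hb2 : b ≤ 2)
    (hQ : A ≤ Q) (hQ2 : Q ≤ A ^ 2) : N / Q ^ 2 + 1 ≤ 2 * A ^ (2 * b) / Q ^ b := by
  have hA0 : 0 < A := by linarith
  have hQ0 : 0 < Q := by linarith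
  have hQb : 0 < Q ^ b := Real.rpow_pos_of_pos hQ0 b
  have e1 : A ^ (2 * b) = (A ^ 2) ^ b := by
    rw [Real.rpow_mul hA0.le, Real.rpow_two]
  have h1 : 1 ≤ A ^ (2 * b) / Q ^ b := by
    rw [le_div_iff₀ hQb, one_mul, e1]
    exact Real.rpow_le_rpow hQ0.le hQ2 (by linarith)
  have h2 : N / Q ^ 2 ≤ A ^ (2 * b) / Q ^ b := by
    rw [div_le_div_iff₀ (by positivity) hQb, hN]
    have e2 : Q ^ 2 = Q ^ b * Q ^ (2 - b) := by
      rw [← Real.rpow_add hQ0, ← Real.rpow_two]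
      congr 1
      ring
    have e3 : A ^ 3 ≤ A ^ (2 * b) * A ^ (2 - b) := by
      rw [← Real.rpow_add hA0, ← Real.rpow_natCast]
      refine Real.rpow_le_rpow_of_exponent_le hA ?_
      push_cast
      linarith
    have e4 : A ^ (2 - b) ≤ Q ^ (2 - b) := Real.rpow_le_rpow hA0.le hQ (by linarith)
    rw [e2]
    calc A ^ 3 * Q ^ b ≤ (A ^ (2 * b) * A ^ (2 - b)) * Q ^ b :=
          mul_le_mul_of_nonneg_right e3 hQb.le
      _ ≤ (A ^ (2 * b) * Q ^ (2 - b)) * Q ^ b := by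
          refine mul_le_mul_of_nonneg_right ?_ hQb.le
          exact mul_le_mul_of_nonneg_left e4 (Real.rpow_pos_of_pos hA0 _).le
      _ = A ^ (2 * b) * (Q ^ b * Q ^ (2 - b)) := by ring
  have e5 : 2 * A ^ (2 * b) / Q ^ b = A ^ (2 * b) / Q ^ b + A ^ (2 * b) / Q ^ b := by ring
  rw [e5]
  linarith

lemma term_b (N A Q z k0 h : ℝ) (c : ℕ) (hA : 1 ≤ A) (hN : N = A ^ 3) (hQ1 : 1 ≤ Q) (hQ : Q < A)
    (hz : 1 ≤ z) (hh : 0 ≤ h) (hc : k0 ≤ c) :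
    h ^ c * (N / Q ^ 2 + 1) ≤ 2 * N * z ^ (-k0) * ((z * h) ^ c / Q ^ (2 : ℝ)) := by
  have hA0 : 0 < A := by linarith
  have hQ0 : 0 < Q := by linarith
  have hz0 : 0 < z := by linarith
  have hN0 : 0 < N := by rw [hN]; positivity
  have h1 : 1 ≤ N / Q ^ 2 := by
    rw [le_div_iff₀ (by positivity), hN, one_mul]
    calc Q ^ 2 ≤ A ^ 2 := pow_le_pow_left₀ hQ0.le hQ.le 2
      _ ≤ A ^ 3 := pow_le_pow_right₀ hA (by norm_num)
  have h2 : 1 ≤ z ^ (-k0) * z ^ c := by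
    rw [← Real.rpow_natCast, ← Real.rpow_add hz0]
    exact Real.one_le_rpow hz (by linarith)
  rw [Real.rpow_two, mul_pow]
  calc h ^ c * (N / Q ^ 2 + 1) ≤ h ^ c * (2 * (N / Q ^ 2)) :=
        mul_le_mul_of_nonneg_left (by linarith) (by positivity)
    _ = (h ^ c * (2 * (N / Q ^ 2))) * 1 := (mul_one _).symm
    _ ≤ (h ^ c * (2 * (N / Q ^ 2))) * (z ^ (-k0) * z ^ c) :=
        mul_le_mul_of_nonneg_left h2 (by positivity)
    _ = 2 * N * z ^ (-k0) * (z ^ c * h ^ c / Q ^ 2) := by ring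

/-- the finite form of the upper bound -/
theorem up_finite (hBT : S_BT) (N h : ℕ) (k0 z b : ℝ) (hN : 8 ≤ N) (hhN : h ≤ N)
    (hb : 1 ≤ b) (hb2 : b ≤ 2) (hz : 1 ≤ z)
    (hfew : ∀ m : ℕ, Run m h → ∃ T : Finset ℕ, k0 ≤ T.card ∧
      ∀ p ∈ T, p.Prime ∧ h < p ^ 2 ∧ ∃ i ∈ Finset.Icc 1 h, p ^ 2 ∣ m + i) :
    (runs N h : ℝ) ≤ 2 * (N : ℝ) ^ (2 * b / 3) *
      ∏ n ∈ Finset.Icc 1 (2 * N), (1 + (h : ℝ) / (n : ℝ) ^ b) +
      2 * N * z ^ (-k0) * ∏ n ∈ Finset.Icc 1 (2 * N), (1 + (z * h) / (n : ℝ) ^ (2 : ℝ)) := by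
  classical
  set A : ℝ := (N : ℝ) ^ (1 / 3 : ℝ) with hA
  have hNr : (8 : ℝ) ≤ N := by exact_mod_cast hN
  have hN0 : (0 : ℝ) < N := by linarith
  have hA1 : 1 ≤ A := Real.one_le_rpow (by linarith) (by norm_num)
  have hA3 : (N : ℝ) = A ^ 3 := by
    rw [hA, ← Real.rpow_natCast, ← Real.rpow_mul hN0.le]
    norm_num
  have hA2 : A ^ 2 = (N : ℝ) ^ (2 / 3 : ℝ) := by
    rw [hA, ← Real.rpow_natCast, ← Real.rpow_mul hN0.le]
    norm_num
  have hA2b : (N : ℝ) ^ (2 * b / 3) = A ^ (2 * b) := by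
    rw [hA, ← Real.rpow_mul hN0.le]
    congr 1
    ring
  have hA8 : 2 ≤ A := by
    by_contra h
    push Not at h
    have : A ^ 3 < 2 ^ 3 := pow_lt_pow_left₀ h (by linarith) (by norm_num)
    rw [← hA3] at this
    linarith
  set S0 : Finset ℕ := Finset.Icc 1 (2 * N) with hS0
  set 𝒯a : Finset (Finset ℕ) := S0.powerset.filter (fun T : Finset ℕ => (∀ p ∈ T, p.Prime) ∧ A ≤ ∏ p ∈ T, (p : ℝ) ∧
    ∏ p ∈ T, (p : ℝ) ≤ A ^ 2) with h𝒯a
  set 𝒯b : Finset (Finset ℕ) := S0.powerset.filter (fun T : Finset ℕ => (∀ p ∈ T, p.Prime) ∧ k0 ≤ (T.card : ℝ) ∧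
    ∏ p ∈ T, (p : ℝ) < A) with h𝒯b
  set B : Finset ℕ → Finset ℕ := fun T => (Finset.range (N + 1)).filter fun m =>
    ∀ p ∈ T, ∃ i ∈ Finset.Icc 1 h, p ^ 2 ∣ m + i with hB
  have hcover : (Finset.range (N + 1)).filter (fun m => Run m h) ⊆ 𝒯a.biUnion B ∪ 𝒯b.biUnion B := by
    intro m hm
    rw [Finset.mem_filter, Finset.mem_range] at hm
    obtain ⟨T, hT1, hT2⟩ := hfew m hm.2
    have hTS : T ⊆ S0 := by
      intro p hp
      obtain ⟨h1, h2, i, hi, h3⟩ := hT2 p hp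
      rw [Finset.mem_Icc] at hi
      have h4 : p ^ 2 ≤ m + i := Nat.le_of_dvd (by omega) h3
      have h5 : p ≤ p ^ 2 := Nat.le_self_pow (by norm_num) p
      rw [hS0, Finset.mem_Icc]
      exact ⟨h1.one_lt.le, by omega⟩
    have hp2 : ∀ p ∈ T, (p : ℝ) ≤ A ^ 2 := by
      intro p hp
      obtain ⟨h1, h2, i, hi, h3⟩ := hT2 p hp
      rw [Finset.mem_Icc] at hi
      have h4 : p ^ 2 ≤ m + i := Nat.le_of_dvd (by omega) h3
      have h5 : p ^ 2 ≤ 2 * N := by omega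
      have h6 : (p : ℝ) ^ 2 ≤ 2 * N := by exact_mod_cast h5
      have h7 : (p : ℝ) ^ 2 ≤ (A ^ 2) ^ 2 := by
        calc (p : ℝ) ^ 2 ≤ 2 * N := h6
          _ = 2 * A ^ 3 := by rw [hA3]
          _ ≤ A * A ^ 3 := mul_le_mul_of_nonneg_right hA8 (by positivity)
          _ = (A ^ 2) ^ 2 := by ring
      exact le_of_sq_le_sq h7 (by positivity)
    have hp1 : ∀ p ∈ T, (1 : ℝ) ≤ p := by
      intro p hp
      exact_mod_cast (hT2 p hp).1.one_lt.le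
    rw [Finset.mem_union, Finset.mem_biUnion, Finset.mem_biUnion]
    rcases le_or_gt A (∏ p ∈ T, (p : ℝ)) with h | h
    · obtain ⟨T', hT', h4, h5⟩ := exists_mid A hA1 T hp1 hp2 h
      left
      refine ⟨T', ?_, ?_⟩
      · rw [h𝒯a, Finset.mem_filter, Finset.mem_powerset]
        exact ⟨hT'.trans hTS, fun p hp => (hT2 p (hT' hp)).1, h4, h5⟩
      · rw [hB, Finset.mem_filter, Finset.mem_range]
        exact ⟨hm.1, fun p hp => (hT2 p (hT' hp)).2.2⟩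
    · right
      refine ⟨T, ?_, ?_⟩
      · rw [h𝒯b, Finset.mem_filter, Finset.mem_powerset]
        exact ⟨hTS, fun p hp => (hT2 p hp).1, hT1, h⟩
      · rw [hB, Finset.mem_filter, Finset.mem_range]
        exact ⟨hm.1, fun p hp => (hT2 p hp).2.2⟩
  have h1 : (runs N h : ℝ) ≤ ∑ T ∈ 𝒯a, ((B T).card : ℝ) + ∑ T ∈ 𝒯b, ((B T).card : ℝ) := by
    have h2 : runs N h ≤ ∑ T ∈ 𝒯a, (B T).card + ∑ T ∈ 𝒯b, (B T).card := by
      unfold runs
      refine le_trans ?_ ((Finset.card_le_card hcover).trans ((Finset.card_union_le _ _).trans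
        (add_le_add Finset.card_biUnion_le Finset.card_biUnion_le)))
      apply le_of_eq
      congr 1
    exact_mod_cast h2
  have ha : ∑ T ∈ 𝒯a, ((B T).card : ℝ) ≤ 2 * (N : ℝ) ^ (2 * b / 3) *
      ∏ n ∈ S0, (1 + (h : ℝ) / (n : ℝ) ^ b) := by
    calc ∑ T ∈ 𝒯a, ((B T).card : ℝ) ≤ ∑ T ∈ 𝒯a, 2 * (N : ℝ) ^ (2 * b / 3) *
          ((h : ℝ) ^ T.card / (∏ p ∈ T, (p : ℝ)) ^ b) := by
          refine Finset.sum_le_sum fun T hT => ?_
          rw [h𝒯a, Finset.mem_filter] at hT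
          refine (hBT T hT.2.1 N h).trans ?_
          have h3 := term_a N A (∏ p ∈ T, (p : ℝ)) b hA1 hA3 hb hb2 hT.2.2.1 hT.2.2.2
          rw [hA2b]
          calc (h : ℝ) ^ T.card * ((N : ℝ) / (∏ p ∈ T, (p : ℝ)) ^ 2 + 1) ≤
              (h : ℝ) ^ T.card * (2 * A ^ (2 * b) / (∏ p ∈ T, (p : ℝ)) ^ b) :=
                mul_le_mul_of_nonneg_left h3 (by positivity)
            _ = _ := by ring
      _ ≤ _ := by
          rw [← Finset.mul_sum]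
          refine mul_le_mul_of_nonneg_left ?_ (by positivity)
          exact sum_powerset_le S0 𝒯a (Finset.filter_subset _ _) h b (by positivity)
  have hb' : ∑ T ∈ 𝒯b, ((B T).card : ℝ) ≤ 2 * N * z ^ (-k0) *
      ∏ n ∈ S0, (1 + (z * h) / (n : ℝ) ^ (2 : ℝ)) := by
    calc ∑ T ∈ 𝒯b, ((B T).card : ℝ) ≤ ∑ T ∈ 𝒯b, 2 * N * z ^ (-k0) *
          ((z * h) ^ T.card / (∏ p ∈ T, (p : ℝ)) ^ (2 : ℝ)) := by
          refine Finset.sum_le_sum fun T hT => ?_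
          rw [h𝒯b, Finset.mem_filter] at hT
          refine (hBT T hT.2.1 N h).trans ?_
          exact term_b N A _ z k0 h T.card hA1 hA3 (one_le_prod T hT.2.1) hT.2.2.2 hz
            (by positivity) hT.2.2.1
      _ ≤ _ := by
          rw [← Finset.mul_sum]
          have hz0 : 0 < z := by linarith
          refine mul_le_mul_of_nonneg_left ?_ (by positivity)
          exact sum_powerset_le S0 𝒯b (Finset.filter_subset _ _) (z * h) 2 (by positivity)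
  linarith

end Pool.Agent.Helper12.SF
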